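import Pool.Agent.W_MP_c77619_lc.Sound

/-!
Completeness: if the homomorphisms agree on the language, a valid certificate exists.
-/

set_option autoImplicit false

namespace Pool.Agent.W_MP_c77619_lc

/-- vectors derivable over a generic base level with top symbol `F` -/
inductive Der (p : Inp) (F : ℕ) : ℕ → List ℕ → Vec → Prop
  | bin {A B C : ℕ} {ρ : List ℕ} {v₁ v₂ : Vec} : (0, A, B, C) ∈ p.2.1 → Der p F B ρ v₁ →
      Der p F C ρ v₂ → Der p F A ρ (mulV v₁ v₂)
  | push {A B f : ℕ} {ρ : List ℕ} {v : Vec} : (1, A, B, f) ∈ p.2.1 → Der p F B (f :: ρ) v →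
      Der p F A ρ v
  | pop {A B f : ℕ} {ρ : List ℕ} {v : Vec} : (2, A, B, f) ∈ p.2.1 → Der p F B ρ v →
      Der p F A (f :: ρ) v
  | base {A B f i : ℕ} : (2, A, B, f) ∈ p.2.1 → f + 1 = F → i < 5 → Der p F A [] (varV B i)
  | letter {A a c : ℕ} {ρ : List ℕ} : (3, A, a, c) ∈ p.2.1 →
      Der p F A ρ (muV p.2.2.1 p.2.2.2 a)
  | eps {A a c : ℕ} {ρ : List ℕ} : (4, A, a, c) ∈ p.2.1 → Der p F A ρ oneV

/-- the generic environment -/
noncomputable def gen (n : ℕ) (j : ℕ) : MvPolynomial (Fin n) ℤ :=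
  if h : j < n then MvPolynomial.X ⟨j, h⟩ else 0

/-- vector of polynomials coded by a list -/
noncomputable def toV (n : ℕ) (v : Vec) : Fin 5 → MvPolynomial (Fin n) ℤ := evalV (gen n) v

lemma toV_apply (n : ℕ) (v : Vec) (k : Fin 5) : toV n v k = toPoly n (v.getD k []) := rfl

/-- module generated by the derivable vectors -/
noncomputable def DM (p : Inp) (n F A : ℕ) (ρ : List ℕ) :
    Submodule (MvPolynomial (Fin n) ℤ) (Fin 5 → MvPolynomial (Fin n) ℤ) :=
  Submodule.span _ {x | ∃ v, Der p F A ρ v ∧ x = toV n v}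

lemma toV_mulV (n : ℕ) (v v' : Vec) : toV n (mulV v v') = mul5 (toV n v) (toV n v') :=
  evalV_mulV _ _ _

theorem der_subst {p : Inp} {n F f : ℕ} {s : ℕ → Poly}
    (hs : ∀ B i, i < 5 → toV n (substV s (varV B i)) ∈ DM p n F B [])
    {A : ℕ} {ρ : List ℕ} {v : Vec} (h : Der p (f + 1) A ρ v) :
    toV n (substV s v) ∈ DM p n F A (ρ ++ [f]) := by
  induction h with
  | @bin A B C ρ v₁ v₂ hr _ _ ih1 ih2 =>
    have h1 : toV n (substV s (mulV v₁ v₂)) = mul5 (toV n (substV s v₁)) (toV n (substV s v₂)) := by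
      unfold toV
      rw [evalV_substV, evalV_mulV, evalV_substV, evalV_substV]
    rw [h1]
    refine mul5_mem ?_ ih1 ih2
    rintro _ ⟨w₁, hw₁, rfl⟩ _ ⟨w₂, hw₂, rfl⟩
    rw [← toV_mulV]
    exact Submodule.subset_span ⟨_, Der.bin hr hw₁ hw₂, rfl⟩
  | @push A B g ρ v hr _ ih =>
    refine Submodule.span_mono ?_ ih
    rintro _ ⟨w, hw, rfl⟩
    exact ⟨w, Der.push hr hw, rfl⟩
  | @pop A B g ρ v hr _ ih =>
    refine Submodule.span_mono ?_ ih
    rintro _ ⟨w, hw, rfl⟩
    exact ⟨w, Der.pop hr hw, rfl⟩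
  | @base A B g i hr hg hi =>
    obtain rfl : g = f := by omega
    refine Submodule.span_mono ?_ (hs B i hi)
    rintro _ ⟨w, hw, rfl⟩
    exact ⟨w, Der.pop hr hw, rfl⟩
  | @letter A a c ρ hr =>
    have h1 : toV n (substV s (muV p.2.2.1 p.2.2.2 a)) = toV n (muV p.2.2.1 p.2.2.2 a) := by
      unfold toV
      rw [evalV_substV, evalV_muV, evalV_muV]
    rw [h1]
    exact Submodule.subset_span ⟨_, Der.letter hr, rfl⟩
  | @eps A a c ρ hr =>
    have h1 : toV n (substV s oneV) = toV n oneV := by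
      unfold toV
      rw [evalV_substV, evalV_oneV _ [] [], evalV_oneV _ [] []]
    rw [h1]
    exact Submodule.subset_span ⟨_, Der.eps hr, rfl⟩

theorem der_zero {p : Inp} {A : ℕ} {ρ : List ℕ} {v : Vec} (h : Der p 0 A ρ v) :
    ∃ w, Gen p.2.1 A ρ w ∧ evalV (fun _ => (0 : ℕ)) v = muW p.2.2.1 p.2.2.2 w := by
  induction h with
  | @bin A B C ρ v₁ v₂ hr _ _ ih1 ih2 =>
    obtain ⟨w₁, hg₁, he₁⟩ := ih1
    obtain ⟨w₂, hg₂, he₂⟩ := ih2
    exact ⟨w₁ ++ w₂, Gen.bin hr hg₁ hg₂, by rw [evalV_mulV, he₁, he₂, muW_append]⟩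
  | push hr _ ih =>
    obtain ⟨w, hg, he⟩ := ih
    exact ⟨w, Gen.push hr hg, he⟩
  | pop hr _ ih =>
    obtain ⟨w, hg, he⟩ := ih
    exact ⟨w, Gen.pop hr hg, he⟩
  | base _ h _ => omega
  | @letter A a c ρ hr => exact ⟨[a], Gen.letter hr, by rw [evalV_muV]; simp⟩
  | eps hr => exact ⟨[], Gen.eps hr, by rw [evalV_oneV _ p.2.2.1 p.2.2.2]; simp⟩

/-- finitely many derivable vectors generate the module -/
lemma exists_finite (p : Inp) (n F A : ℕ) : ∃ L : List Vec, (∀ v ∈ L, Der p F A [] v) ∧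
    DM p n F A [] ≤ Submodule.span _ {x | ∃ v ∈ L, x = toV n v} := by
  classical
  have hfg : (DM p n F A []).FG := IsNoetherian.noetherian _
  unfold DM at hfg
  rw [Submodule.fg_span_iff_fg_span_finset_subset] at hfg
  obtain ⟨T, hT, hspan⟩ := hfg
  have hv : ∀ x ∈ T, ∃ v, Der p F A [] v ∧ x = toV n v := fun x hx => hT hx
  choose! vec hvec hx using hv
  refine ⟨T.toList.map vec, ?_, ?_⟩
  · intro v hv
    obtain ⟨x, hx', rfl⟩ := List.mem_map.mp hv
    exact hvec x (Finset.mem_toList.mp hx')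
  · unfold DM
    rw [hspan]
    apply Submodule.span_mono
    intro x hxT
    exact ⟨vec x, List.mem_map.mpr ⟨x, Finset.mem_toList.mpr hxT, rfl⟩, hx x hxT⟩

lemma exists_diff (n : ℕ) (c : MvPolynomial (Fin n) ℤ) :
    ∃ a b : Poly, c = toPoly n a - toPoly n b := by
  induction c using MvPolynomial.induction_on with
  | C z =>
    refine ⟨constP z.toNat, constP (-z).toNat, ?_⟩
    have h1 : ∀ m : ℕ, toPoly n (constP m) = (m : MvPolynomial (Fin n) ℤ) :=
      fun m => evalP_constP _ m
    rw [h1, h1]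
    have h2 : z = ((z.toNat : ℕ) : ℤ) - (((-z).toNat : ℕ) : ℤ) := by omega
    have h3 : MvPolynomial.C z = ((z : ℤ) : MvPolynomial (Fin n) ℤ) := by simp
    rw [h3]
    have h4 := congrArg (fun y : ℤ => ((y : ℤ) : MvPolynomial (Fin n) ℤ)) h2
    simp only [Int.cast_sub, Int.cast_natCast] at h4
    exact h4
  | add p q hp hq =>
    obtain ⟨a, b, rfl⟩ := hp
    obtain ⟨a', b', rfl⟩ := hq
    refine ⟨a ++ a', b ++ b', ?_⟩
    rw [toPoly_append, toPoly_append]
    ring
  | mul_X p i hp =>
    obtain ⟨a, b, rfl⟩ := hp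
    refine ⟨mulP a [[(i : ℕ)]], mulP b [[(i : ℕ)]], ?_⟩
    have h1 : toPoly n [[(i : ℕ)]] = MvPolynomial.X i := by
      simp [toPoly, evalP]
    rw [toPoly_mulP, toPoly_mulP, h1]
    ring

lemma toPoly_flatMap {α : Type*} (n : ℕ) (T : List α) (f : α → Poly) :
    toPoly n (T.flatMap f) = (T.map (fun t => toPoly n (f t))).sum := by
  induction T with
  | nil => rfl
  | cons t T ih => rw [List.flatMap_cons, toPoly_append, ih, List.map_cons, List.sum_cons]

lemma mem_of_span {n A F : ℕ} {cert : Cert} {u : Vec}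
    (h : toV n u ∈ Submodule.span (MvPolynomial (Fin n) ℤ)
      {x | ∃ v, ((A, F), v) ∈ cert ∧ x = toV n v}) : Mem n cert A F u := by
  have key : ∀ x ∈ Submodule.span (MvPolynomial (Fin n) ℤ)
      {x | ∃ v, ((A, F), v) ∈ cert ∧ x = toV n v},
      ∃ T : List (Poly × Poly × Vec), (∀ t ∈ T, ((A, F), t.2.2) ∈ cert) ∧
        x = (T.map (fun t => (toPoly n t.1 - toPoly n t.2.1) • toV n t.2.2)).sum := by
    intro x hx
    induction hx using Submodule.span_induction with
    | mem x hx =>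
      obtain ⟨v, hv, rfl⟩ := hx
      refine ⟨[([[]], [], v)], by simpa using hv, ?_⟩
      have h1 : toPoly n [[]] = 1 := by simp [toPoly, evalP]
      simp [h1, toPoly_nil]
    | zero => exact ⟨[], by simp, rfl⟩
    | add x y _ _ hx hy =>
      obtain ⟨T, hT, rfl⟩ := hx
      obtain ⟨T', hT', rfl⟩ := hy
      refine ⟨T ++ T', ?_, by simp⟩
      intro t ht
      rcases List.mem_append.mp ht with ht | ht
      · exact hT t ht
      · exact hT' t ht
    | smul c x _ hx =>
      obtain ⟨T, hT, rfl⟩ := hx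
      obtain ⟨a, b, rfl⟩ := exists_diff n c
      refine ⟨T.map (fun t => (mulP a t.1 ++ mulP b t.2.1, mulP a t.2.1 ++ mulP b t.1, t.2.2)),
        ?_, ?_⟩
      · intro t ht
        obtain ⟨t', ht', rfl⟩ := List.mem_map.mp ht
        exact hT t' ht'
      · rw [List.smul_sum, List.map_map, List.map_map]
        congr 1
        apply List.map_congr_left
        intro t _
        simp only [Function.comp]
        rw [smul_smul]
        congr 1
        rw [toPoly_append, toPoly_append, toPoly_mulP, toPoly_mulP, toPoly_mulP, toPoly_mulP]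
        ring
  obtain ⟨T, hT, hu⟩ := key _ h
  refine ⟨T, hT, ?_⟩
  intro k hk
  rw [List.mem_range] at hk
  rw [eqv_iff, toPoly_append, toPoly_flatMap, toPoly_flatMap]
  have h1 := congrFun hu ⟨k, hk⟩
  rw [toV_apply] at h1
  simp only at h1
  rw [h1]
  clear h1 hu hT h
  induction T with
  | nil => simp
  | cons t T ih =>
    simp only [List.map_cons, List.sum_cons, Pi.add_apply, Pi.smul_apply, smul_eq_mul,
      toV_apply, toPoly_mulP] at ih ⊢
    linear_combination ih

theorem complete {p : Inp} (h : ∀ w, Gen p.2.1 p.1 [] w → hom p.2.2.1 w = hom p.2.2.2 w) :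
    ∃ K, ∃ cert, Good p K cert := by
  classical
  obtain ⟨K, hK⟩ : ∃ K, ∀ r ∈ p.2.1, r.2.1 < K := by
    generalize p.2.1 = P
    induction P with
    | nil => exact ⟨0, by simp⟩
    | cons r P ih =>
      obtain ⟨K, hK⟩ := ih
      refine ⟨max K (r.2.1 + 1), ?_⟩
      intro r' hr'
      rcases List.mem_cons.mp hr' with rfl | hr'
      · omega
      · have := hK r' hr'
        omega
  choose L hL1 hL2 using fun F A => exists_finite p (25 * K) F A
  let cert : Cert := (List.range K).flatMap (fun A => (flags p.2.1).flatMap (fun F =>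
    (L F A).map (fun v => ((A, F), v))))
  have hcert : ∀ A F v, ((A, F), v) ∈ cert ↔ A < K ∧ F ∈ flags p.2.1 ∧ v ∈ L F A := by
    intro A F v
    simp only [cert, List.mem_flatMap, List.mem_range, List.mem_map]
    constructor
    · rintro ⟨A', hA', F', hF', v', hv', heq⟩
      simp only [Prod.mk.injEq] at heq
      obtain ⟨⟨rfl, rfl⟩, rfl⟩ := heq
      exact ⟨hA', hF', hv'⟩
    · rintro ⟨hA, hF, hv⟩
      exact ⟨A, hA, F, hF, v, hv, rfl⟩
  have hder : ∀ A F v, ((A, F), v) ∈ cert → Der p F A [] v := by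
    intro A F v hv
    exact hL1 F A v ((hcert A F v).mp hv).2.2
  have hmem : ∀ A F u, A < K → F ∈ flags p.2.1 → toV (25 * K) u ∈ DM p (25 * K) F A [] →
      Mem (25 * K) cert A F u := by
    intro A F u hA hF hu
    apply mem_of_span
    refine Submodule.span_mono ?_ (hL2 F A hu)
    rintro x ⟨v, hv, rfl⟩
    exact ⟨v, (hcert A F v).mpr ⟨hA, hF, hv⟩, rfl⟩
  refine ⟨K, cert, hK, ?_, ?_⟩
  · rintro F hF ⟨ty, A, B, C⟩ hr
    have hA : A < K := hK _ hr
    refine ⟨?_, ?_, ?_, ?_, ?_⟩
    · rintro rfl ⟨k1, v1⟩ h1 rfl ⟨k2, v2⟩ h2 rfl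
      apply hmem _ _ _ hA hF
      exact Submodule.subset_span ⟨_, Der.bin hr (hder _ _ _ h1) (hder _ _ _ h2), rfl⟩
    · rintro rfl ⟨k1, v⟩ h1 rfl s hs
      apply hmem _ _ _ hA hF
      have h2 := der_subst (p := p) (n := 25 * K) (F := F) (f := C) (s := sb cert F s) (A := B)
        (ρ := []) (v := v) ?_ (hder _ _ _ h1)
      · refine Submodule.span_mono ?_ h2
        rintro _ ⟨w, hw, rfl⟩
        exact ⟨w, Der.push hr hw, rfl⟩
      · intro B' i hi
        have h3 : toV (25 * K) (substV (sb cert F s) (varV B' i))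
            = toV (25 * K) (sel cert F s (B' * 5 + i)) := by
          unfold toV
          rw [evalV_substV, evalV_varV]
          funext k
          have hk := k.2
          simp only [evalV, sb]
          rw [show ((B' * 5 + i) * 5 + (k : ℕ)) / 5 = B' * 5 + i by omega,
            show ((B' * 5 + i) * 5 + (k : ℕ)) % 5 = k by omega]
        rw [h3]
        unfold sel
        split_ifs with hkey
        · by_cases hlt : s.getD (B' * 5 + i) cert.length < cert.length
          · rw [List.getD_eq_getElem cert _ hlt] at hkey ⊢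
            have h4 : cert[s.getD (B' * 5 + i) cert.length] ∈ cert := List.getElem_mem hlt
            have h5 : cert[s.getD (B' * 5 + i) cert.length] = ((B', F),
                (cert[s.getD (B' * 5 + i) cert.length]).2) := by
              apply Prod.ext
              · rw [hkey, show (B' * 5 + i) / 5 = B' by omega]
              · rfl
            rw [h5] at h4
            exact Submodule.subset_span ⟨_, hder _ _ _ h4, rfl⟩
          · rw [List.getD_eq_default cert _ (by omega)]
            have h6 : toV (25 * K) [] = 0 := evalV_nil _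
            simp only
            rw [h6]
            exact Submodule.zero_mem _
        · have h6 : toV (25 * K) [] = 0 := evalV_nil _
          rw [h6]
          exact Submodule.zero_mem _
    · rintro rfl hFC i hi
      rw [List.mem_range] at hi
      apply hmem _ _ _ hA hF
      exact Submodule.subset_span ⟨_, Der.base hr hFC.symm hi, rfl⟩
    · rintro rfl
      apply hmem _ _ _ hA hF
      exact Submodule.subset_span ⟨_, Der.letter hr, rfl⟩
    · rintro rfl
      apply hmem _ _ _ hA hF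
      exact Submodule.subset_span ⟨_, Der.eps hr, rfl⟩
  · rintro ⟨k, v⟩ hv rfl
    obtain ⟨w, hw, he⟩ := der_zero (hder _ _ _ hv)
    have h1 := h w hw
    have h2 := congrFun he 2
    have h3 := congrFun he 3
    simp only [evalV, muW] at h2 h3
    simp only
    have h2' : evalP (fun _ => (0 : ℕ)) (v.getD 2 []) = (sv (hom p.2.2.1 w)).2 := h2
    have h3' : evalP (fun _ => (0 : ℕ)) (v.getD 3 []) = (sv (hom p.2.2.2 w)).2 := h3
    rw [h2', h3', h1]

end Pool.Agent.W_MP_c77619_lc
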