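import Pool.Agent.W_MP_c77619_lc.PR

/-!
Sentential forms of an indexed grammar in normal form, and the big-step description of the
generated words.
-/

set_option autoImplicit false

namespace Pool.Agent.W_MP_c77619_lc

open Relation

/-- sentential forms -/
abbrev Form := List ((ℕ × List ℕ) ⊕ ℕ)

/-- one derivation step -/
def Step (P : List (ℕ × ℕ × ℕ × ℕ)) (u v : Form) : Prop :=
  ∃ (pre suf : List ((ℕ × List ℕ) ⊕ ℕ)) (A : ℕ) (σ : List ℕ),
    u = pre ++ Sum.inl (A, σ) :: suf ∧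
    ∃ r ∈ P, r.2.1 = A ∧
      ((r.1 = 0 ∧
          v = pre ++ Sum.inl (r.2.2.1, σ) :: Sum.inl (r.2.2.2, σ) :: suf) ∨
       (r.1 = 1 ∧ v = pre ++ Sum.inl (r.2.2.1, r.2.2.2 :: σ) :: suf) ∨
       (r.1 = 2 ∧ ∃ τ : List ℕ, σ = r.2.2.2 :: τ ∧
          v = pre ++ Sum.inl (r.2.2.1, τ) :: suf) ∨
       (r.1 = 3 ∧ v = pre ++ Sum.inr r.2.2.1 :: suf) ∨
       (r.1 = 4 ∧ v = pre ++ suf))

/-- big-step generation of words from a nonterminal with a stack -/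
inductive Gen (P : List (ℕ × ℕ × ℕ × ℕ)) : ℕ → List ℕ → List ℕ → Prop
  | bin {A B C : ℕ} {σ w₁ w₂ : List ℕ} : (0, A, B, C) ∈ P → Gen P B σ w₁ → Gen P C σ w₂ →
      Gen P A σ (w₁ ++ w₂)
  | push {A B f : ℕ} {σ w : List ℕ} : (1, A, B, f) ∈ P → Gen P B (f :: σ) w → Gen P A σ w
  | pop {A B f : ℕ} {σ w : List ℕ} : (2, A, B, f) ∈ P → Gen P B σ w → Gen P A (f :: σ) w
  | letter {A a c : ℕ} {σ : List ℕ} : (3, A, a, c) ∈ P → Gen P A σ [a]
  | eps {A a c : ℕ} {σ : List ℕ} : (4, A, a, c) ∈ P → Gen P A σ []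

/-- words generated by a sentential form -/
inductive GenF (P : List (ℕ × ℕ × ℕ × ℕ)) : Form → List ℕ → Prop
  | nil : GenF P [] []
  | term {a : ℕ} {u : Form} {w : List ℕ} : GenF P u w → GenF P (Sum.inr a :: u) (a :: w)
  | nonterm {A : ℕ} {σ : List ℕ} {u : Form} {w₁ w₂ : List ℕ} : Gen P A σ w₁ → GenF P u w₂ →
      GenF P (Sum.inl (A, σ) :: u) (w₁ ++ w₂)

variable {P : List (ℕ × ℕ × ℕ × ℕ)}

lemma genF_append {u v : Form} {w : List ℕ} :
    GenF P (u ++ v) w ↔ ∃ w₁ w₂, w = w₁ ++ w₂ ∧ GenF P u w₁ ∧ GenF P v w₂ := by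
  constructor
  · intro h
    induction u generalizing w with
    | nil => exact ⟨[], w, rfl, GenF.nil, h⟩
    | cons x u ih =>
      rw [List.cons_append] at h
      cases h with
      | term h =>
        obtain ⟨w₁, w₂, rfl, h1, h2⟩ := ih h
        exact ⟨_ :: w₁, w₂, rfl, GenF.term h1, h2⟩
      | nonterm h h' =>
        obtain ⟨w₁, w₂, rfl, h1, h2⟩ := ih h'
        exact ⟨_ ++ w₁, w₂, by rw [List.append_assoc], GenF.nonterm h h1, h2⟩
  · rintro ⟨w₁, w₂, rfl, h1, h2⟩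
    induction h1 with
    | nil => exact h2
    | term _ ih => exact GenF.term ih
    | nonterm h _ ih => rw [List.cons_append, List.append_assoc]; exact GenF.nonterm h ih

lemma genF_single {A : ℕ} {σ w : List ℕ} : GenF P [Sum.inl (A, σ)] w ↔ Gen P A σ w := by
  constructor
  · intro h
    cases h with
    | nonterm h h' =>
      cases h'
      simpa using h
  · intro h
    have := GenF.nonterm h GenF.nil
    simpa using this

lemma genF_terminal (w : List ℕ) : GenF P (w.map Sum.inr) w := by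
  induction w with
  | nil => exact GenF.nil
  | cons a w ih => exact GenF.term ih

lemma genF_step {u v : Form} {w : List ℕ} (h : Step P u v) (hv : GenF P v w) : GenF P u w := by
  obtain ⟨pre, suf, A, σ, rfl, ⟨t, A', B, C⟩, hr, hA, hcase⟩ := h
  simp only at hA hcase
  subst hA
  rcases hcase with ⟨rfl, rfl⟩ | ⟨rfl, rfl⟩ | ⟨rfl, τ, rfl, rfl⟩ | ⟨rfl, rfl⟩ | ⟨rfl, rfl⟩
  · rw [genF_append] at hv ⊢
    obtain ⟨w₁, w₂, rfl, h1, h2⟩ := hv
    refine ⟨w₁, w₂, rfl, h1, ?_⟩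
    cases h2 with
    | nonterm hB h3 =>
      cases h3 with
      | nonterm hC h4 =>
        rw [← List.append_assoc]
        exact GenF.nonterm (Gen.bin hr hB hC) h4
  · rw [genF_append] at hv ⊢
    obtain ⟨w₁, w₂, rfl, h1, h2⟩ := hv
    refine ⟨w₁, w₂, rfl, h1, ?_⟩
    cases h2 with
    | nonterm hB h3 => exact GenF.nonterm (Gen.push hr hB) h3
  · rw [genF_append] at hv ⊢
    obtain ⟨w₁, w₂, rfl, h1, h2⟩ := hv
    refine ⟨w₁, w₂, rfl, h1, ?_⟩
    cases h2 with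
    | nonterm hB h3 => exact GenF.nonterm (Gen.pop hr hB) h3
  · rw [genF_append] at hv ⊢
    obtain ⟨w₁, w₂, rfl, h1, h2⟩ := hv
    refine ⟨w₁, w₂, rfl, h1, ?_⟩
    cases h2 with
    | term h3 => exact GenF.nonterm (Gen.letter hr) h3
  · rw [genF_append] at hv ⊢
    obtain ⟨w₁, w₂, rfl, h1, h2⟩ := hv
    refine ⟨w₁, w₂, rfl, h1, ?_⟩
    exact GenF.nonterm (Gen.eps hr) h2

lemma step_append {u v : Form} (x y : Form) (h : Step P u v) :
    Step P (x ++ u ++ y) (x ++ v ++ y) := by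
  obtain ⟨pre, suf, A, σ, rfl, r, hr, hA, hcase⟩ := h
  refine ⟨x ++ pre, suf ++ y, A, σ, by simp, r, hr, hA, ?_⟩
  rcases hcase with ⟨h1, rfl⟩ | ⟨h1, rfl⟩ | ⟨h1, τ, rfl, rfl⟩ | ⟨h1, rfl⟩ | ⟨h1, rfl⟩
  · left; exact ⟨h1, by simp⟩
  · right; left; exact ⟨h1, by simp⟩
  · right; right; left; exact ⟨h1, τ, rfl, by simp⟩
  · right; right; right; left; exact ⟨h1, by simp⟩
  · right; right; right; right; exact ⟨h1, by simp⟩

lemma rtg_append {u v : Form} (x y : Form) (h : ReflTransGen (Step P) u v) :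
    ReflTransGen (Step P) (x ++ u ++ y) (x ++ v ++ y) := by
  induction h with
  | refl => exact ReflTransGen.refl
  | tail _ h ih => exact ih.tail (step_append x y h)

lemma gen_rtg {A : ℕ} {σ w : List ℕ} (h : Gen P A σ w) :
    ReflTransGen (Step P) [Sum.inl (A, σ)] (w.map Sum.inr) := by
  induction h with
  | @bin A B C σ w₁ w₂ hr _ _ ih1 ih2 =>
    have s1 : Step P [Sum.inl (A, σ)] [Sum.inl (B, σ), Sum.inl (C, σ)] :=
      ⟨[], [], A, σ, rfl, _, hr, rfl, Or.inl ⟨rfl, rfl⟩⟩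
    have s2 := rtg_append [] [Sum.inl (C, σ)] ih1
    have s3 := rtg_append (w₁.map Sum.inr) [] ih2
    simp only [List.nil_append, List.append_nil] at s2 s3
    rw [List.map_append]
    exact ReflTransGen.head s1 (s2.trans s3)
  | push hr _ ih =>
    exact ReflTransGen.head ⟨[], [], _, _, rfl, _, hr, rfl, Or.inr (Or.inl ⟨rfl, rfl⟩)⟩ ih
  | pop hr _ ih =>
    exact ReflTransGen.head
      ⟨[], [], _, _, rfl, _, hr, rfl, Or.inr (Or.inr (Or.inl ⟨rfl, _, rfl, rfl⟩))⟩ ih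
  | letter hr =>
    exact ReflTransGen.single
      ⟨[], [], _, _, rfl, _, hr, rfl, Or.inr (Or.inr (Or.inr (Or.inl ⟨rfl, rfl⟩)))⟩
  | eps hr =>
    exact ReflTransGen.single
      ⟨[], [], _, _, rfl, _, hr, rfl, Or.inr (Or.inr (Or.inr (Or.inr ⟨rfl, rfl⟩)))⟩

/-- the two descriptions of the generated words agree -/
theorem rtg_iff_gen {A : ℕ} {σ w : List ℕ} :
    ReflTransGen (Step P) [Sum.inl (A, σ)] (w.map Sum.inr) ↔ Gen P A σ w := by
  constructor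
  · intro h
    rw [← genF_single]
    have key : ∀ u : Form, ReflTransGen (Step P) u (w.map Sum.inr) → GenF P u w := by
      intro u hu
      induction hu using ReflTransGen.head_induction_on with
      | refl => exact genF_terminal w
      | head h _ ih => exact genF_step h ih
    exact key _ h
  · exact gen_rtg

/-- one-step derivability is recursively enumerable -/
theorem sig_step : Sig (fun x : List (ℕ × ℕ × ℕ × ℕ) × Form × Form => Step x.1 x.2.1 x.2.2) := by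
  have h1 : Sig (fun x : List (ℕ × ℕ × ℕ × ℕ) × Form × Form =>
      ∃ c : Form × Form × ℕ × List ℕ × (ℕ × ℕ × ℕ × ℕ) × List ℕ,
        (x.2.1 = c.1 ++ Sum.inl (c.2.2.1, c.2.2.2.1) :: c.2.1) ∧
        c.2.2.2.2.1 ∈ x.1 ∧ c.2.2.2.2.1.2.1 = c.2.2.1 ∧
        ((c.2.2.2.2.1.1 = 0 ∧ x.2.2 = c.1 ++ Sum.inl (c.2.2.2.2.1.2.2.1, c.2.2.2.1) ::
            Sum.inl (c.2.2.2.2.1.2.2.2, c.2.2.2.1) :: c.2.1) ∨
         (c.2.2.2.2.1.1 = 1 ∧ x.2.2 = c.1 ++ Sum.inl (c.2.2.2.2.1.2.2.1,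
            c.2.2.2.2.1.2.2.2 :: c.2.2.2.1) :: c.2.1) ∨
         (c.2.2.2.2.1.1 = 2 ∧ c.2.2.2.1 = c.2.2.2.2.1.2.2.2 :: c.2.2.2.2.2 ∧
            x.2.2 = c.1 ++ Sum.inl (c.2.2.2.2.1.2.2.1, c.2.2.2.2.2) :: c.2.1) ∨
         (c.2.2.2.2.1.1 = 3 ∧ x.2.2 = c.1 ++ Sum.inr c.2.2.2.2.1.2.2.1 :: c.2.1) ∨
         (c.2.2.2.2.1.1 = 4 ∧ x.2.2 = c.1 ++ c.2.1))) := by
    apply Sig.ex
    apply Sig.of_prim
    refine PrimrecPred.and (pp_eq (by fun_prop) (by fun_prop)) ?_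
    refine PrimrecPred.and (pp_mem (by fun_prop) (by fun_prop)) ?_
    refine PrimrecPred.and (pp_eq (by fun_prop) (by fun_prop)) ?_
    refine PrimrecPred.or (PrimrecPred.and (pp_eq (by fun_prop) (by fun_prop))
      (pp_eq (by fun_prop) (by fun_prop))) ?_
    refine PrimrecPred.or (PrimrecPred.and (pp_eq (by fun_prop) (by fun_prop))
      (pp_eq (by fun_prop) (by fun_prop))) ?_
    refine PrimrecPred.or (PrimrecPred.and (pp_eq (by fun_prop) (by fun_prop))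
      (PrimrecPred.and (pp_eq (by fun_prop) (by fun_prop))
      (pp_eq (by fun_prop) (by fun_prop)))) ?_
    exact PrimrecPred.or (PrimrecPred.and (pp_eq (by fun_prop) (by fun_prop))
      (pp_eq (by fun_prop) (by fun_prop))) (PrimrecPred.and (pp_eq (by fun_prop) (by fun_prop))
      (pp_eq (by fun_prop) (by fun_prop)))
  refine h1.of_eq ?_
  intro x
  constructor
  · rintro ⟨⟨pre, suf, A, σ, r, τ⟩, h1, h2, h3, h4⟩
    simp only at h1 h2 h3 h4
    refine ⟨pre, suf, A, σ, h1, r, h2, h3, ?_⟩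
    rcases h4 with h4 | h4 | h4 | h4 | h4
    · exact Or.inl h4
    · exact Or.inr (Or.inl h4)
    · exact Or.inr (Or.inr (Or.inl ⟨h4.1, τ, h4.2.1, h4.2.2⟩))
    · exact Or.inr (Or.inr (Or.inr (Or.inl h4)))
    · exact Or.inr (Or.inr (Or.inr (Or.inr h4)))
  · rintro ⟨pre, suf, A, σ, h1, r, h2, h3, h4⟩
    rcases h4 with h4 | h4 | ⟨h5, τ, h6, h7⟩ | h4 | h4
    · exact ⟨⟨pre, suf, A, σ, r, []⟩, h1, h2, h3, Or.inl h4⟩
    · exact ⟨⟨pre, suf, A, σ, r, []⟩, h1, h2, h3, Or.inr (Or.inl h4)⟩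
    · exact ⟨⟨pre, suf, A, σ, r, τ⟩, h1, h2, h3, Or.inr (Or.inr (Or.inl ⟨h5, h6, h7⟩))⟩
    · exact ⟨⟨pre, suf, A, σ, r, []⟩, h1, h2, h3, Or.inr (Or.inr (Or.inr (Or.inl h4)))⟩
    · exact ⟨⟨pre, suf, A, σ, r, []⟩, h1, h2, h3, Or.inr (Or.inr (Or.inr (Or.inr h4)))⟩

end Pool.Agent.W_MP_c77619_lc
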