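import Pool.Agent.W_MP_c77619_lc.Poly
import Pool.Agent.W_MP_c77619_lc.Gen

/-!
Vectors of polynomials, certificates, and recursive enumerability of the certificate condition.
-/

set_option autoImplicit false

namespace Pool.Agent.W_MP_c77619_lc

/-- inputs: start symbol, productions, two letter-to-word tables -/
abbrev Inp := ℕ × List (ℕ × ℕ × ℕ × ℕ) × List (List ℕ) × List (List ℕ)

/-- the homomorphism given by a table -/
def hom (t : List (List ℕ)) (w : List ℕ) : List ℕ := w.flatMap (fun a => t.getD a [])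

/-- scale and value of a word -/
def sv (u : List ℕ) : ℕ × ℕ :=
  u.foldr (fun n acc => (2 ^ (n+1) * acc.1, 2 ^ n * acc.1 + acc.2)) (1, 0)

/-- vectors of polynomials -/
abbrev Vec := List Poly

/-- evaluation of the five components -/
def evalV {R : Type*} [CommSemiring R] (e : ℕ → R) (v : Vec) : Fin 5 → R :=
  fun k => evalP e (v.getD k [])

/-- product of vectors -/
def mulV (v v' : Vec) : Vec :=
  [mulP (v.getD 0 []) (v'.getD 0 []), mulP (v.getD 1 []) (v'.getD 1 []),
   mulP (v.getD 2 []) (v'.getD 0 []) ++ mulP (v.getD 4 []) (v'.getD 2 []),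
   mulP (v.getD 3 []) (v'.getD 1 []) ++ mulP (v.getD 4 []) (v'.getD 3 []),
   mulP (v.getD 4 []) (v'.getD 4 [])]

/-- vector of a letter -/
def muV (hs gs : List (List ℕ)) (a : ℕ) : Vec :=
  [constP (sv (hs.getD a [])).1, constP (sv (gs.getD a [])).1, constP (sv (hs.getD a [])).2,
   constP (sv (gs.getD a [])).2, constP 1]

/-- vector of the empty word -/
def oneV : Vec := [constP 1, constP 1, [], [], constP 1]

/-- generic vector number `i` of the nonterminal `B` -/
def varV (B i : ℕ) : Vec := (List.range 5).map (fun j => [[(B * 5 + i) * 5 + j]])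

/-- substitution in a vector -/
def substV (s : ℕ → Poly) (v : Vec) : Vec := v.map (substP s)

/-- certificates: generating vectors for each nonterminal and top symbol -/
abbrev Cert := List ((ℕ × ℕ) × Vec)

/-- selection of a vector of the certificate -/
def sel (cert : Cert) (F : ℕ) (s : List ℕ) (k : ℕ) : Vec :=
  if (cert.getD (s.getD k cert.length) ((0, 0), [])).1 = (k / 5, F) then
    (cert.getD (s.getD k cert.length) ((0, 0), [])).2 else []

/-- substitution given by a selection -/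
def sb (cert : Cert) (F : ℕ) (s : List ℕ) (j : ℕ) : Poly := (sel cert F s (j / 5)).getD (j % 5) []

/-- membership in the module generated by the vectors of the certificate -/
def Mem (n : ℕ) (cert : Cert) (A F : ℕ) (v : Vec) : Prop :=
  ∃ T : List (Poly × Poly × Vec), (∀ t ∈ T, ((A, F), t.2.2) ∈ cert) ∧
    ∀ k ∈ List.range 5, eqv n (v.getD k [] ++ T.flatMap (fun t => mulP t.2.1 (t.2.2.getD k [])))
      (T.flatMap (fun t => mulP t.1 (t.2.2.getD k [])))

/-- closure of the certificate under a production -/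
def Cond (K : ℕ) (cert : Cert) (hs gs : List (List ℕ)) (F : ℕ) (r : ℕ × ℕ × ℕ × ℕ) : Prop :=
  (r.1 = 0 → ∀ e1 ∈ cert, e1.1 = (r.2.2.1, F) → ∀ e2 ∈ cert, e2.1 = (r.2.2.2, F) →
    Mem (25 * K) cert r.2.1 F (mulV e1.2 e2.2)) ∧
  (r.1 = 1 → ∀ e ∈ cert, e.1 = (r.2.2.1, r.2.2.2 + 1) → ∀ s ∈ grid (cert.length + 1) (5 * K),
    Mem (25 * K) cert r.2.1 F (substV (sb cert F s) e.2)) ∧
  (r.1 = 2 → F = r.2.2.2 + 1 → ∀ i ∈ List.range 5, Mem (25 * K) cert r.2.1 F (varV r.2.2.1 i)) ∧
  (r.1 = 3 → Mem (25 * K) cert r.2.1 F (muV hs gs r.2.2.1)) ∧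
  (r.1 = 4 → Mem (25 * K) cert r.2.1 F oneV)

/-- the possible top symbols -/
def flags (P : List (ℕ × ℕ × ℕ × ℕ)) : List ℕ := 0 :: P.map (fun r => r.2.2.2 + 1)

/-- valid certificates -/
def Good (p : Inp) (K : ℕ) (cert : Cert) : Prop :=
  (∀ r ∈ p.2.1, r.2.1 < K) ∧
  (∀ F ∈ flags p.2.1, ∀ r ∈ p.2.1, Cond K cert p.2.2.1 p.2.2.2 F r) ∧
  (∀ e ∈ cert, e.1 = (p.1, 0) →
    evalP (fun _ => 0) (e.2.getD 2 []) = evalP (fun _ => (0 : ℕ)) (e.2.getD 3 []))

section prim
variable {α : Type*} [Primcodable α]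

@[fun_prop] theorem pr_hom {f : α → List (List ℕ)} {g : α → List ℕ} (hf : Primrec f)
    (hg : Primrec g) : Primrec (fun x => hom (f x) (g x)) := by
  unfold hom; fun_prop

@[fun_prop] theorem pr_sv {f : α → List ℕ} (hf : Primrec f) : Primrec (fun x => sv (f x)) := by
  unfold sv; fun_prop

@[fun_prop] theorem pr_mulV {f g : α → Vec} (hf : Primrec f) (hg : Primrec g) :
    Primrec (fun x => mulV (f x) (g x)) := by
  unfold mulV; fun_prop

@[fun_prop] theorem pr_muV {f g : α → List (List ℕ)} {a : α → ℕ} (hf : Primrec f)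
    (hg : Primrec g) (ha : Primrec a) : Primrec (fun x => muV (f x) (g x) (a x)) := by
  unfold muV; fun_prop

@[fun_prop] theorem pr_varV {f g : α → ℕ} (hf : Primrec f) (hg : Primrec g) :
    Primrec (fun x => varV (f x) (g x)) := by
  unfold varV; fun_prop

@[fun_prop] theorem pr_sel {c : α → Cert} {f : α → ℕ} {s : α → List ℕ} {k : α → ℕ}
    (hc : Primrec c) (hf : Primrec f) (hs : Primrec s) (hk : Primrec k) :
    Primrec (fun x => sel (c x) (f x) (s x) (k x)) := by
  unfold sel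
  apply pr_ite_eq <;> fun_prop

@[fun_prop] theorem pr_sb {c : α → Cert} {f : α → ℕ} {s : α → List ℕ} {k : α → ℕ}
    (hc : Primrec c) (hf : Primrec f) (hs : Primrec s) (hk : Primrec k) :
    Primrec (fun x => sb (c x) (f x) (s x) (k x)) := by
  unfold sb; fun_prop

theorem pr_substV {s : α → ℕ → Poly} {f : α → Vec} (hs : Primrec (fun x : α × ℕ => s x.1 x.2))
    (hf : Primrec f) : Primrec (fun x => substV (s x) (f x)) := by
  unfold substV
  apply pr_map hf
  apply pr_substP (s := fun (x : α × Poly) j => s x.1 j)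
  · exact hs.comp (f := fun x : α × ℕ => s x.1 x.2)
      (g := fun y : (α × Poly) × ℕ => (y.1.1, y.2)) (by fun_prop)
  · fun_prop

theorem sig_mem : Sig (fun x : ℕ × Cert × ℕ × ℕ × Vec =>
    Mem x.1 x.2.1 x.2.2.1 x.2.2.2.1 x.2.2.2.2) := by
  unfold Mem
  apply Sig.ex
  apply Sig.of_prim
  refine PrimrecPred.and ?_ ?_
  · apply pp_forall_mem
    · fun_prop
    · exact pp_mem (by fun_prop) (by fun_prop)
  · apply pp_forall_mem
    · fun_prop
    · refine pp_eqv.comp (f := fun y : ((ℕ × Cert × ℕ × ℕ × Vec) × List (Poly × Poly × Vec)) × ℕ =>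
        (y.1.1.1, y.1.1.2.2.2.2.getD y.2 [] ++
          y.1.2.flatMap (fun t => mulP t.2.1 (t.2.2.getD y.2 [])),
          y.1.2.flatMap (fun t => mulP t.1 (t.2.2.getD y.2 [])))) ?_
      fun_prop

/-- composed form of `sig_mem` -/
theorem sig_mem' {n : α → ℕ} {c : α → Cert} {A F : α → ℕ} {v : α → Vec} (hn : Primrec n)
    (hc : Primrec c) (hA : Primrec A) (hF : Primrec F) (hv : Primrec v) :
    Sig (fun x => Mem (n x) (c x) (A x) (F x) (v x)) :=
  sig_mem.comp (f := fun x => (n x, c x, A x, F x, v x)) (by fun_prop)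

theorem sig_cond : Sig (fun x : ℕ × Cert × List (List ℕ) × List (List ℕ) × ℕ × (ℕ × ℕ × ℕ × ℕ) =>
    Cond x.1 x.2.1 x.2.2.1 x.2.2.2.1 x.2.2.2.2.1 x.2.2.2.2.2) := by
  unfold Cond
  refine Sig.and ?_ (Sig.and ?_ (Sig.and ?_ (Sig.and ?_ ?_)))
  · refine Sig.imp (pp_eq (by fun_prop) (by fun_prop)) ?_
    refine Sig.all_mem ?_ (by fun_prop)
    refine Sig.imp (pp_eq (by fun_prop) (by fun_prop)) ?_
    refine Sig.all_mem ?_ (by fun_prop)
    refine Sig.imp (pp_eq (by fun_prop) (by fun_prop)) ?_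
    exact sig_mem' (by fun_prop) (by fun_prop) (by fun_prop) (by fun_prop) (by fun_prop)
  · refine Sig.imp (pp_eq (by fun_prop) (by fun_prop)) ?_
    refine Sig.all_mem ?_ (by fun_prop)
    refine Sig.imp (pp_eq (by fun_prop) (by fun_prop)) ?_
    refine Sig.all_mem ?_ (by fun_prop)
    refine sig_mem' (by fun_prop) (by fun_prop) (by fun_prop) (by fun_prop) ?_
    exact pr_substV (by fun_prop) (by fun_prop)
  · refine Sig.imp (pp_eq (by fun_prop) (by fun_prop)) ?_
    refine Sig.imp (pp_eq (by fun_prop) (by fun_prop)) ?_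
    refine Sig.all_mem ?_ (by fun_prop)
    exact sig_mem' (by fun_prop) (by fun_prop) (by fun_prop) (by fun_prop) (by fun_prop)
  · refine Sig.imp (pp_eq (by fun_prop) (by fun_prop)) ?_
    exact sig_mem' (by fun_prop) (by fun_prop) (by fun_prop) (by fun_prop) (by fun_prop)
  · refine Sig.imp (pp_eq (by fun_prop) (by fun_prop)) ?_
    exact sig_mem' (by fun_prop) (by fun_prop) (by fun_prop) (by fun_prop) (by fun_prop)

theorem sig_good : Sig (fun p : Inp => ∃ K, ∃ cert, Good p K cert) := by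
  apply Sig.ex
  apply Sig.ex
  unfold Good
  refine Sig.and ?_ (Sig.and ?_ ?_)
  · apply Sig.of_prim
    apply pp_forall_mem
    · fun_prop
    · exact Primrec.nat_lt.comp (by fun_prop) (by fun_prop)
  · refine Sig.all_mem ?_ (by unfold flags; fun_prop)
    refine Sig.all_mem ?_ (by fun_prop)
    exact sig_cond.comp (f := fun x : (((Inp × ℕ) × Cert) × ℕ) × (ℕ × ℕ × ℕ × ℕ) =>
      (x.1.1.1.2, x.1.1.2, x.1.1.1.1.2.2.1, x.1.1.1.1.2.2.2, x.1.2, x.2)) (by fun_prop)
  · refine Sig.all_mem ?_ (by fun_prop)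
    refine Sig.imp (pp_eq (by fun_prop) (by fun_prop)) ?_
    apply Sig.of_prim
    unfold evalP
    exact pp_eq (by fun_prop) (by fun_prop)

/-- inequivalence is recursively enumerable -/
theorem sig_neg : Sig (fun p : Inp => ∃ w : List ℕ,
    Relation.ReflTransGen (Step p.2.1) [Sum.inl (p.1, [])] (w.map Sum.inr) ∧
      ¬ hom p.2.2.1 w = hom p.2.2.2 w) := by
  apply Sig.ex
  refine Sig.and ?_ ?_
  · exact (Sig.rtg sig_step).comp (f := fun x : Inp × List ℕ =>
      (x.1.2.1, ([Sum.inl (x.1.1, [])] : Form), (x.2.map Sum.inr : Form))) (by fun_prop)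
  · apply Sig.of_prim
    exact (pp_eq (by fun_prop) (by fun_prop)).not

end prim

end Pool.Agent.W_MP_c77619_lc
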