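import Pool.Agent.W_MP_c77619_lc.Sig

/-!
Composition lemmas for primitive recursive functions, registered so that they can be applied
automatically.
-/

set_option autoImplicit false

namespace Pool.Agent.W_MP_c77619_lc

attribute [fun_prop] Primrec

variable {α β γ δ : Type*} [Primcodable α] [Primcodable β] [Primcodable γ] [Primcodable δ]

@[fun_prop] theorem pr_id : Primrec (fun x : α => x) := Primrec.id
@[fun_prop] theorem pr_const (c : β) : Primrec (fun _ : α => c) := Primrec.const c
@[fun_prop] theorem pr_comp {f : β → γ} {g : α → β} (hf : Primrec f) (hg : Primrec g) :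
    Primrec (fun x => f (g x)) := hf.comp hg
@[fun_prop] theorem pr_fst {f : α → β × γ} (hf : Primrec f) : Primrec (fun x => (f x).1) :=
  Primrec.fst.comp hf
@[fun_prop] theorem pr_snd {f : α → β × γ} (hf : Primrec f) : Primrec (fun x => (f x).2) :=
  Primrec.snd.comp hf
@[fun_prop] theorem pr_pair {f : α → β} {g : α → γ} (hf : Primrec f) (hg : Primrec g) :
    Primrec (fun x => (f x, g x)) := hf.pair hg
@[fun_prop] theorem pr_append {f g : α → List β} (hf : Primrec f) (hg : Primrec g) :
    Primrec (fun x => f x ++ g x) := Primrec.list_append.comp hf hg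
@[fun_prop] theorem pr_cons {f : α → β} {g : α → List β} (hf : Primrec f) (hg : Primrec g) :
    Primrec (fun x => f x :: g x) := Primrec.list_cons.comp hf hg
@[fun_prop] theorem pr_inl {f : α → β} (hf : Primrec f) :
    Primrec (fun x => (Sum.inl (f x) : β ⊕ γ)) := Primrec.sumInl.comp hf
@[fun_prop] theorem pr_inr {f : α → γ} (hf : Primrec f) :
    Primrec (fun x => (Sum.inr (f x) : β ⊕ γ)) := Primrec.sumInr.comp hf
@[fun_prop] theorem pr_map {f : α → List β} {g : α → β → γ} (hf : Primrec f)
    (hg : Primrec (fun x : α × β => g x.1 x.2)) : Primrec (fun x => (f x).map (g x)) :=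
  Primrec.list_map hf hg
@[fun_prop] theorem pr_flatMap {f : α → List β} {g : α → β → List γ} (hf : Primrec f)
    (hg : Primrec (fun x : α × β => g x.1 x.2)) : Primrec (fun x => (f x).flatMap (g x)) :=
  Primrec.list_flatMap hf hg
@[fun_prop] theorem pr_foldr {f : α → List β} {g : α → γ} {h : α → β → γ → γ} (hf : Primrec f)
    (hg : Primrec g) (hh : Primrec (fun x : α × (β × γ) => h x.1 x.2.1 x.2.2)) :
    Primrec (fun x => (f x).foldr (h x) (g x)) :=
  Primrec.list_foldr (h := fun x bs => h x bs.1 bs.2) hf hg hh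
@[fun_prop] theorem pr_getD {f : α → List β} {g : α → ℕ} {h : α → β} (hf : Primrec f)
    (hg : Primrec g) (hh : Primrec h) : Primrec (fun x => (f x).getD (g x) (h x)) :=
  (Primrec.option_getD.comp (Primrec.list_getElem?.comp hf hg) hh).of_eq
    (fun x => by simp [List.getD_eq_getElem?_getD])
@[fun_prop] theorem pr_range {f : α → ℕ} (hf : Primrec f) :
    Primrec (fun x => List.range (f x)) := Primrec.list_range.comp hf
@[fun_prop] theorem pr_length {f : α → List β} (hf : Primrec f) :
    Primrec (fun x => (f x).length) := Primrec.list_length.comp hf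
@[fun_prop] theorem pr_add {f g : α → ℕ} (hf : Primrec f) (hg : Primrec g) :
    Primrec (fun x => f x + g x) := Primrec.nat_add.comp hf hg
@[fun_prop] theorem pr_mul {f g : α → ℕ} (hf : Primrec f) (hg : Primrec g) :
    Primrec (fun x => f x * g x) := Primrec.nat_mul.comp hf hg
@[fun_prop] theorem pr_div {f g : α → ℕ} (hf : Primrec f) (hg : Primrec g) :
    Primrec (fun x => f x / g x) := Primrec.nat_div.comp hf hg
@[fun_prop] theorem pr_mod {f g : α → ℕ} (hf : Primrec f) (hg : Primrec g) :
    Primrec (fun x => f x % g x) := Primrec.nat_mod.comp hf hg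
@[fun_prop] theorem pr_pow {f g : α → ℕ} (hf : Primrec f) (hg : Primrec g) :
    Primrec (fun x => f x ^ g x) :=
  (Primrec₂.unpaired'.1 Nat.Primrec.pow).comp hf hg
@[fun_prop] theorem pr_natRec {f : α → ℕ} {g : α → γ} {h : α → ℕ → γ → γ} (hf : Primrec f)
    (hg : Primrec g) (hh : Primrec (fun x : α × (ℕ × γ) => h x.1 x.2.1 x.2.2)) :
    Primrec (fun x => Nat.rec (motive := fun _ => γ) (g x) (h x) (f x)) :=
  Primrec.nat_rec' (h := fun x bs => h x bs.1 bs.2) hf hg hh
@[fun_prop] theorem pr_sum {f : α → List ℕ} (hf : Primrec f) : Primrec (fun x => (f x).sum) := by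
  have h1 : Primrec (fun x => (f x).foldr (fun a b => a + b) 0) := by fun_prop
  exact h1.of_eq (fun x => by rw [List.sum_eq_foldr])
@[fun_prop] theorem pr_prod {f : α → List ℕ} (hf : Primrec f) : Primrec (fun x => (f x).prod) := by
  have h1 : Primrec (fun x => (f x).foldr (fun a b => a * b) 1) := by fun_prop
  exact h1.of_eq (fun x => by rw [List.prod_eq_foldr])

/-- if-then-else with a decidable equality test -/
theorem pr_ite_eq {f g : α → β} {a b : α → γ} [DecidableEq β] (hf : Primrec f) (hg : Primrec g)
    (ha : Primrec a) (hb : Primrec b) : Primrec (fun x => if f x = g x then a x else b x) :=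
  Primrec.ite (Primrec.eq.comp hf hg) ha hb

theorem pp_eq {f g : α → β} (hf : Primrec f) (hg : Primrec g) :
    PrimrecPred (fun x => f x = g x) := Primrec.eq.comp hf hg

theorem pp_mem {f : α → β} {g : α → List β} (hf : Primrec f) (hg : Primrec g) :
    PrimrecPred (fun x => f x ∈ g x) := by
  have h1 : PrimrecRel (fun (L : List β) (b : β) => ∃ a ∈ L, a = b) :=
    PrimrecRel.exists_mem_list (R := fun a b => a = b) Primrec.eq
  exact (h1.comp hg hf).of_eq (fun x => by simp)

theorem pp_forall_mem {l : α → List β} {p : α → β → Prop} (hl : Primrec l)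
    (hp : PrimrecPred (fun x : α × β => p x.1 x.2)) : PrimrecPred (fun x => ∀ b ∈ l x, p x b) := by
  have h1 : PrimrecRel (fun (b : β) (a : α) => p a b) :=
    PrimrecPred.comp (p := fun x : α × β => p x.1 x.2) hp (Primrec.pair Primrec.snd Primrec.fst)
  exact (h1.forall_mem_list.comp hl Primrec.id)

end Pool.Agent.W_MP_c77619_lc
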