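import Pool.Agent.W_MP_c77619_lc.PR

/-!
Polynomials with natural number coefficients, coded as lists of monomials (a monomial is the list
of its variables), with a primitive recursive equality test.
-/

set_option autoImplicit false

namespace Pool.Agent.W_MP_c77619_lc

/-- polynomials: lists of monomials, a monomial is a list of variables -/
abbrev Poly := List (List ℕ)

/-- evaluation -/
def evalP {R : Type*} [CommSemiring R] (e : ℕ → R) (p : Poly) : R :=
  (p.map (fun m => (m.map e).prod)).sum

/-- product -/
def mulP (p q : Poly) : Poly := p.flatMap (fun m => q.map (fun m' => m ++ m'))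

/-- constants -/
def constP (n : ℕ) : Poly := (List.range n).map (fun _ => [])

/-- substitution -/
def substP (s : ℕ → Poly) (p : Poly) : Poly :=
  p.flatMap (fun m => m.foldr (fun j acc => mulP (s j) acc) [[]])

section eval
variable {R S : Type*} [CommSemiring R] [CommSemiring S]

@[simp] lemma evalP_nil (e : ℕ → R) : evalP e [] = 0 := rfl

lemma evalP_cons (e : ℕ → R) (m : List ℕ) (p : Poly) :
    evalP e (m :: p) = (m.map e).prod + evalP e p := by
  simp [evalP]

lemma evalP_append (e : ℕ → R) (p q : Poly) : evalP e (p ++ q) = evalP e p + evalP e q := by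
  simp [evalP]

lemma evalP_hom (φ : R →+* S) (e : ℕ → R) (p : Poly) :
    φ (evalP e p) = evalP (fun j => φ (e j)) p := by
  induction p with
  | nil => simp
  | cons m p ih =>
    rw [evalP_cons, evalP_cons, map_add, ih, map_list_prod, List.map_map]
    rfl

lemma evalP_map_append (e : ℕ → R) (m : List ℕ) (q : Poly) :
    evalP e (q.map (fun m' => m ++ m')) = (m.map e).prod * evalP e q := by
  induction q with
  | nil => simp
  | cons a q ih => rw [List.map_cons, evalP_cons, evalP_cons, ih]; simp [mul_add]

lemma evalP_mulP (e : ℕ → R) (p q : Poly) : evalP e (mulP p q) = evalP e p * evalP e q := by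
  induction p with
  | nil => simp [mulP]
  | cons m p ih =>
    have : mulP (m :: p) q = q.map (fun m' => m ++ m') ++ mulP p q := by simp [mulP]
    rw [this, evalP_append, evalP_map_append, ih, evalP_cons, add_mul]

lemma evalP_constP (e : ℕ → R) (n : ℕ) : evalP e (constP n) = n := by
  simp [evalP, constP]

lemma evalP_substP (e : ℕ → R) (s : ℕ → Poly) (p : Poly) :
    evalP e (substP s p) = evalP (fun j => evalP e (s j)) p := by
  have key : ∀ m : List ℕ, evalP e (m.foldr (fun j acc => mulP (s j) acc) [[]])
      = (m.map (fun j => evalP e (s j))).prod := by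
    intro m
    induction m with
    | nil => simp [evalP]
    | cons j m ih => rw [List.foldr_cons, evalP_mulP, ih]; simp
  induction p with
  | nil => simp [substP]
  | cons m p ih =>
    have : substP s (m :: p) = m.foldr (fun j acc => mulP (s j) acc) [[]] ++ substP s p := by
      simp [substP]
    rw [this, evalP_append, key, ih, evalP_cons]

lemma evalP_congr {e e' : ℕ → R} (h : ∀ j, e j = e' j) (p : Poly) : evalP e p = evalP e' p := by
  rw [show e = e' from funext h]

end eval

/-- all lists of length `n` with entries less than `B` -/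
def grid (B n : ℕ) : List (List ℕ) :=
  Nat.rec (motive := fun _ => List (List ℕ)) [[]]
    (fun _ acc => acc.flatMap (fun e => (List.range B).map (fun x => x :: e))) n

lemma mem_grid (B n : ℕ) (l : List ℕ) : l ∈ grid B n ↔ l.length = n ∧ ∀ x ∈ l, x < B := by
  induction n generalizing l with
  | zero =>
    have h0 : grid B 0 = [[]] := rfl
    rw [h0, List.mem_singleton]
    constructor
    · rintro rfl; simp
    · rintro ⟨h, -⟩; exact List.length_eq_zero_iff.mp h
  | succ n ih =>
    have : grid B (n+1) = (grid B n).flatMap (fun e => (List.range B).map (fun x => x :: e)) := rfl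
    rw [this, List.mem_flatMap]
    constructor
    · rintro ⟨e, he, hl⟩
      obtain ⟨x, hx, rfl⟩ := List.mem_map.mp hl
      rw [List.mem_range] at hx
      rw [ih] at he
      refine ⟨by simp [he.1], ?_⟩
      intro y hy
      rcases List.mem_cons.mp hy with rfl | hy
      · exact hx
      · exact he.2 y hy
    · rintro ⟨hl, hlt⟩
      cases l with
      | nil => simp at hl
      | cons x e =>
        refine ⟨e, (ih e).mpr ⟨by simpa using hl, fun y hy => hlt y (List.mem_cons_of_mem _ hy)⟩, ?_⟩
        exact List.mem_map.mpr ⟨x, List.mem_range.mpr (hlt x List.mem_cons_self), rfl⟩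

/-- equality test for polynomials in the variables `< n` -/
def eqv (n : ℕ) (p q : Poly) : Prop :=
  ∀ l ∈ grid (((p ++ q).map List.length).sum + 1) n,
    evalP (fun j => l.getD j 0) p = evalP (fun j => l.getD j 0) q

/-- the polynomial coded by a list -/
noncomputable def toPoly (n : ℕ) (p : Poly) : MvPolynomial (Fin n) ℤ :=
  evalP (fun j => if h : j < n then MvPolynomial.X ⟨j, h⟩ else 0) p

lemma toPoly_nil (n : ℕ) : toPoly n [] = 0 := rfl

lemma toPoly_append (n : ℕ) (p q : Poly) : toPoly n (p ++ q) = toPoly n p + toPoly n q :=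
  evalP_append _ _ _

lemma toPoly_mulP (n : ℕ) (p q : Poly) : toPoly n (mulP p q) = toPoly n p * toPoly n q :=
  evalP_mulP _ _ _

lemma eval_toPoly (n : ℕ) (e : ℕ → ℤ) (he : ∀ j, n ≤ j → e j = 0) (p : Poly) :
    MvPolynomial.eval (fun i : Fin n => e i) (toPoly n p) = evalP e p := by
  rw [toPoly, evalP_hom]
  apply evalP_congr
  intro j
  split_ifs with h
  · simp
  · rw [map_zero, he j (by omega)]

lemma degreeOf_toPoly (n : ℕ) (i : Fin n) (p : Poly) :
    (toPoly n p).degreeOf i ≤ (p.map List.length).sum := by
  induction p with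
  | nil => simp [toPoly_nil]
  | cons m p ih =>
    have h1 : toPoly n (m :: p) = (m.map (fun j => if h : j < n then
        (MvPolynomial.X ⟨j, h⟩ : MvPolynomial (Fin n) ℤ) else 0)).prod + toPoly n p :=
      evalP_cons _ _ _
    rw [h1, List.map_cons, List.sum_cons]
    refine (MvPolynomial.degreeOf_add_le _ _ _).trans ?_
    have h2 : ((m.map (fun j => if h : j < n then
        (MvPolynomial.X ⟨j, h⟩ : MvPolynomial (Fin n) ℤ) else 0)).prod).degreeOf i ≤ m.length := by
      clear ih h1
      induction m with
      | nil => simp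
      | cons j m ih =>
        rw [List.map_cons, List.prod_cons, List.length_cons]
        refine (MvPolynomial.degreeOf_mul_le _ _ _).trans ?_
        have h3 : (if h : j < n then (MvPolynomial.X ⟨j, h⟩ : MvPolynomial (Fin n) ℤ)
            else 0).degreeOf i ≤ 1 := by
          split_ifs with h
          · rw [MvPolynomial.degreeOf_X]
            split_ifs <;> omega
          · simp
        omega
    omega

lemma castEval (l : List ℕ) (p : Poly) :
    ((evalP (fun j => l.getD j 0) p : ℕ) : ℤ) = evalP (fun j => ((l.getD j 0 : ℕ) : ℤ)) p :=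
  evalP_hom (Nat.castRingHom ℤ) _ p

theorem eqv_iff (n : ℕ) (p q : Poly) : eqv n p q ↔ toPoly n p = toPoly n q := by
  constructor
  · intro h
    rw [← sub_eq_zero]
    set B := ((p ++ q).map List.length).sum + 1 with hB
    apply MvPolynomial.eq_zero_of_eval_zero_at_prod_finset _
      (fun _ => (Finset.range B).map Nat.castEmbedding)
    · intro i
      rw [Finset.card_map, Finset.card_range]
      have h1 := MvPolynomial.degreeOf_sub_le i (toPoly n p) (toPoly n q)
      have h2 := degreeOf_toPoly n i p
      have h3 := degreeOf_toPoly n i q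
      rw [List.map_append, List.sum_append] at hB
      omega
    · intro x hx
      have hx' : ∀ i, ∃ k < B, (k : ℤ) = x i := by
        intro i
        have := hx i
        rw [Finset.mem_map] at this
        obtain ⟨k, hk, hk'⟩ := this
        exact ⟨k, Finset.mem_range.mp hk, hk'⟩
      choose k hk hkx using hx'
      let l : List ℕ := List.ofFn k
      have hl : l ∈ grid B n := by
        rw [mem_grid]
        refine ⟨List.length_ofFn, ?_⟩
        intro y hy
        obtain ⟨i, rfl⟩ := List.mem_ofFn.mp hy
        exact hk i
      have h4 := h l hl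
      have he : ∀ j, n ≤ j → ((l.getD j 0 : ℕ) : ℤ) = 0 := by
        intro j hj
        rw [List.getD_eq_default]
        · rfl
        · rw [List.length_ofFn]; exact hj
      have hxe : x = fun i : Fin n => ((l.getD i 0 : ℕ) : ℤ) := by
        funext i
        rw [← hkx i]
        congr 1
        rw [List.getD_eq_getElem _ _ (by rw [List.length_ofFn]; exact i.2), List.getElem_ofFn]
      rw [map_sub, hxe, eval_toPoly n _ he, eval_toPoly n _ he, ← castEval, ← castEval, h4, sub_self]
  · intro h l hl
    rw [mem_grid] at hl
    have he : ∀ j, n ≤ j → ((l.getD j 0 : ℕ) : ℤ) = 0 := by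
      intro j hj
      rw [List.getD_eq_default]
      · rfl
      · rw [hl.1]; exact hj
    have h1 := eval_toPoly n _ he p
    have h2 := eval_toPoly n _ he q
    rw [h, h2, ← castEval, ← castEval] at h1
    exact_mod_cast h1.symm

/-- equal polynomials have the same values -/
theorem eqv_eval {n : ℕ} {p q : Poly} (h : eqv n p q) (e : ℕ → ℕ) (he : ∀ j, n ≤ j → e j = 0) :
    evalP e p = evalP e q := by
  rw [eqv_iff] at h
  have he' : ∀ j, n ≤ j → ((e j : ℕ) : ℤ) = 0 := by
    intro j hj; rw [he j hj]; rfl
  have h1 := eval_toPoly n (fun j => (e j : ℤ)) he' p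
  have h2 := eval_toPoly n (fun j => (e j : ℤ)) he' q
  rw [h, h2] at h1
  have h3 := evalP_hom (Nat.castRingHom ℤ) e p
  have h4 := evalP_hom (Nat.castRingHom ℤ) e q
  have h5 : ((evalP e q : ℕ) : ℤ) = ((evalP e p : ℕ) : ℤ) := h4.trans (h1.trans h3.symm)
  exact_mod_cast h5.symm

section prim
variable {α : Type*} [Primcodable α]

@[fun_prop] theorem pr_mulP {f g : α → Poly} (hf : Primrec f) (hg : Primrec g) :
    Primrec (fun x => mulP (f x) (g x)) := by
  unfold mulP
  fun_prop

@[fun_prop] theorem pr_constP {f : α → ℕ} (hf : Primrec f) : Primrec (fun x => constP (f x)) := by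
  unfold constP
  fun_prop

@[fun_prop] theorem pr_grid {f g : α → ℕ} (hf : Primrec f) (hg : Primrec g) :
    Primrec (fun x => grid (f x) (g x)) := by
  unfold grid
  fun_prop

theorem pr_substP {s : α → ℕ → Poly} {f : α → Poly} (hs : Primrec (fun x : α × ℕ => s x.1 x.2))
    (hf : Primrec f) : Primrec (fun x => substP (s x) (f x)) := by
  unfold substP
  have h1 : Primrec (fun y : (α × List ℕ) × (ℕ × Poly) => s y.1.1 y.2.1) :=
    hs.comp (f := fun x : α × ℕ => s x.1 x.2)
      (g := fun y : (α × List ℕ) × (ℕ × Poly) => (y.1.1, y.2.1)) (by fun_prop)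
  apply pr_flatMap hf
  apply pr_foldr
  · fun_prop
  · fun_prop
  · apply pr_mulP h1
    fun_prop

theorem pp_eqv : PrimrecPred (fun x : ℕ × Poly × Poly => eqv x.1 x.2.1 x.2.2) := by
  unfold eqv
  apply pp_forall_mem
  · fun_prop
  · unfold evalP
    apply pp_eq
    · fun_prop
    · fun_prop

end prim

end Pool.Agent.W_MP_c77619_lc
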