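import Mathlib

/-!
A small toolkit for showing that predicates are recursively enumerable: `Sig p` says that `p a` is
equivalent to `∃ n, R a n` with `R` primitive recursive.
-/

set_option autoImplicit false

namespace Pool.Agent.W_MP_c77619_lc

section Sig

variable {α β γ : Type*} [Primcodable α] [Primcodable β] [Primcodable γ]

/-- `p` is the projection of a primitive recursive relation. -/
def Sig (p : α → Prop) : Prop :=
  ∃ R : α → ℕ → Prop, PrimrecRel R ∧ ∀ a, p a ↔ ∃ n, R a n

theorem Sig.of_eq {p q : α → Prop} (hp : Sig p) (h : ∀ a, p a ↔ q a) : Sig q := by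
  obtain ⟨R, hR, hRp⟩ := hp
  exact ⟨R, hR, fun a => (h a).symm.trans (hRp a)⟩

theorem Sig.re {p : α → Prop} (h : Sig p) : REPred p := by
  classical
  obtain ⟨R, hR, hp⟩ := h
  have hR' : Primrec₂ (fun a n => decide (R a n)) := hR.decide
  have h1 : Partrec fun a => Nat.rfind fun n => Part.some (decide (R a n)) :=
    Partrec.rfind hR'.to_comp.partrec₂
  refine h1.dom_re.of_eq ?_
  intro a
  rw [hp a]
  refine Nat.rfind_dom.trans ?_
  constructor
  · rintro ⟨n, hn, -⟩
    exact ⟨n, by simpa using hn⟩
  · rintro ⟨n, hn⟩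
    exact ⟨n, by simpa using hn, fun _ => trivial⟩

theorem Sig.of_prim {p : α → Prop} (hp : PrimrecPred p) : Sig p :=
  ⟨fun a _ => p a, hp.comp Primrec.fst, by simp⟩

theorem Sig.comp {p : α → Prop} {f : β → α} (h : Sig p) (hf : Primrec f) :
    Sig (fun b => p (f b)) := by
  obtain ⟨R, hR, hp⟩ := h
  exact ⟨fun b n => R (f b) n, hR.comp (hf.comp Primrec.fst) Primrec.snd, fun b => hp (f b)⟩

theorem Sig.and {p q : α → Prop} (hp : Sig p) (hq : Sig q) : Sig (fun a => p a ∧ q a) := by
  obtain ⟨R, hR, hRp⟩ := hp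
  obtain ⟨Q, hQ, hQq⟩ := hq
  refine ⟨fun a n => R a n.unpair.1 ∧ Q a n.unpair.2, ?_, ?_⟩
  · apply PrimrecPred.and
    · exact hR.comp Primrec.fst (Primrec.fst.comp (Primrec.unpair.comp Primrec.snd))
    · exact hQ.comp Primrec.fst (Primrec.snd.comp (Primrec.unpair.comp Primrec.snd))
  · intro a
    simp only
    rw [hRp, hQq]
    constructor
    · rintro ⟨⟨n, hn⟩, ⟨m, hm⟩⟩
      exact ⟨Nat.pair n m, by simp [hn, hm]⟩
    · rintro ⟨n, hn, hm⟩
      exact ⟨⟨_, hn⟩, ⟨_, hm⟩⟩

theorem Sig.or {p q : α → Prop} (hp : Sig p) (hq : Sig q) : Sig (fun a => p a ∨ q a) := by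
  obtain ⟨R, hR, hRp⟩ := hp
  obtain ⟨Q, hQ, hQq⟩ := hq
  refine ⟨fun a n => R a n ∨ Q a n, PrimrecPred.or hR hQ, ?_⟩
  intro a
  simp only
  rw [hRp, hQq, exists_or]

theorem Sig.imp {p q : α → Prop} (hp : PrimrecPred p) (hq : Sig q) : Sig (fun a => p a → q a) :=
  (Sig.or (Sig.of_prim hp.not) hq).of_eq (fun a => by tauto)

theorem Sig.ex {p : α → β → Prop} (h : Sig (fun x : α × β => p x.1 x.2)) :
    Sig (fun a => ∃ b, p a b) := by
  classical
  obtain ⟨R, hR, hp⟩ := h
  let f : α × ℕ → Bool := fun x =>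
    Option.casesOn (Encodable.decode (α := β) x.2.unpair.1) false
      (fun b => decide (R (x.1, b) x.2.unpair.2))
  have hf : Primrec f := by
    apply Primrec.option_casesOn
    · exact Primrec.decode.comp (Primrec.fst.comp (Primrec.unpair.comp Primrec.snd))
    · exact Primrec.const false
    · have h1 : Primrec (fun y : (α × ℕ) × β => ((y.1.1, y.2), y.1.2.unpair.2)) :=
        Primrec.pair (Primrec.pair (Primrec.fst.comp Primrec.fst) Primrec.snd)
          (Primrec.snd.comp (Primrec.unpair.comp (Primrec.snd.comp Primrec.fst)))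
      exact (hR.decide.comp (Primrec.fst.comp h1) (Primrec.snd.comp h1)).to₂
  refine ⟨fun a n => f (a, n) = true, ?_, ?_⟩
  · exact Primrec.eq.comp hf (Primrec.const true)
  · intro a
    constructor
    · rintro ⟨b, hb⟩
      obtain ⟨n, hn⟩ := (hp (a, b)).mp hb
      exact ⟨Nat.pair (Encodable.encode b) n, by simp [f, hn]⟩
    · rintro ⟨n, hn⟩
      simp only [f] at hn
      cases hdec : Encodable.decode (α := β) n.unpair.1 with
      | none => rw [hdec] at hn; simp at hn
      | some b =>
        rw [hdec] at hn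
        exact ⟨b, (hp (a, b)).mpr ⟨_, of_decide_eq_true hn⟩⟩

theorem Sig.all_mem {p : α → β → Prop} {l : α → List β}
    (h : Sig (fun x : α × β => p x.1 x.2)) (hl : Primrec l) :
    Sig (fun a => ∀ b ∈ l a, p a b) := by
  classical
  obtain ⟨R, hR, hp⟩ := h
  have h0 : PrimrecRel (fun (x : ℕ) (ab : α × β) => R ab x) := hR.comp Primrec.snd Primrec.fst
  have h1 : PrimrecRel (fun (M : ℕ) (ab : α × β) => ∃ x < M, R ab x) :=
    (h0.exists_mem_list.comp (Primrec.list_range.comp Primrec.fst) Primrec.snd).of_eq (by simp)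
  have h2 : PrimrecRel (fun (b : β) (am : α × ℕ) => ∃ x < am.2, R (am.1, b) x) :=
    h1.comp (Primrec.snd.comp Primrec.snd)
      (Primrec.pair (Primrec.fst.comp Primrec.snd) Primrec.fst)
  have h3 := h2.forall_mem_list
  refine ⟨fun a M => ∀ b ∈ l a, ∃ x < M, R (a, b) x, ?_, ?_⟩
  · exact h3.comp (hl.comp Primrec.fst) Primrec.id
  · intro a
    constructor
    · intro hall
      have key : ∀ L : List β, (∀ b ∈ L, ∃ n, R (a, b) n) →
          ∃ M, ∀ b ∈ L, ∃ x < M, R (a, b) x := by
        intro L h4
        induction L with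
        | nil => exact ⟨0, by simp⟩
        | cons b L ih =>
          obtain ⟨M, hM⟩ := ih (fun c hc => h4 c (List.mem_cons_of_mem _ hc))
          obtain ⟨n, hn⟩ := h4 b List.mem_cons_self
          refine ⟨max M (n + 1), ?_⟩
          intro c hc
          rcases List.mem_cons.mp hc with rfl | hc
          · exact ⟨n, by omega, hn⟩
          · obtain ⟨x, hx, hxR⟩ := hM c hc
            exact ⟨x, by omega, hxR⟩
      exact key (l a) (fun b hb => (hp (a, b)).mp (hall b hb))
    · rintro ⟨M, hM⟩ b hb
      obtain ⟨x, _, hx⟩ := hM b hb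
      exact (hp (a, b)).mpr ⟨x, hx⟩

omit [Primcodable β] in
lemma rtg_iff {r : β → β → Prop} (x y : β) :
    Relation.ReflTransGen r x y ↔
      ∃ l : List (β × β), (∀ pr ∈ l, r pr.1 pr.2) ∧ x :: l.map Prod.snd = l.map Prod.fst ++ [y] := by
  constructor
  · intro h
    induction h using Relation.ReflTransGen.head_induction_on with
    | refl => exact ⟨[], by simp, rfl⟩
    | @head a c hac _ ih =>
      obtain ⟨l, hl, he⟩ := ih
      refine ⟨(a, c) :: l, ?_, ?_⟩
      · intro pr hpr
        rcases List.mem_cons.mp hpr with rfl | hpr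
        · exact hac
        · exact hl pr hpr
      · simp [he]
  · rintro ⟨l, hl, he⟩
    induction l generalizing x with
    | nil =>
      simp only [List.map_nil, List.nil_append, List.cons.injEq, and_true] at he
      subst he
      exact Relation.ReflTransGen.refl
    | cons pr l ih =>
      simp only [List.map_cons, List.cons_append, List.cons.injEq] at he
      obtain ⟨rfl, he⟩ := he
      exact Relation.ReflTransGen.head (hl pr List.mem_cons_self)
        (ih pr.2 (fun q hq => hl q (List.mem_cons_of_mem _ hq)) he)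

theorem Sig.rtg {r : α → β → β → Prop} (h : Sig (fun x : α × β × β => r x.1 x.2.1 x.2.2)) :
    Sig (fun x : α × β × β => Relation.ReflTransGen (r x.1) x.2.1 x.2.2) := by
  have h1 : Sig (fun x : α × β × β => ∃ l : List (β × β), (∀ pr ∈ l, r x.1 pr.1 pr.2) ∧
      x.2.1 :: l.map Prod.snd = l.map Prod.fst ++ [x.2.2]) := by
    apply Sig.ex
    apply Sig.and
    · have := Sig.all_mem (α := (α × β × β) × List (β × β)) (β := β × β)
        (p := fun x pr => r x.1.1 pr.1 pr.2) (l := fun x => x.2) ?_ Primrec.snd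
      · exact this
      · exact h.comp (f := fun x : ((α × β × β) × List (β × β)) × (β × β) =>
          (x.1.1.1, x.2.1, x.2.2))
          (Primrec.pair (Primrec.fst.comp (Primrec.fst.comp Primrec.fst))
            (Primrec.pair (Primrec.fst.comp Primrec.snd) (Primrec.snd.comp Primrec.snd)))
    · apply Sig.of_prim
      apply PrimrecRel.comp Primrec.eq
      · apply Primrec.list_cons.comp
        · exact Primrec.fst.comp (Primrec.snd.comp Primrec.fst)
        · exact Primrec.list_map Primrec.snd (Primrec.snd.comp Primrec.snd).to₂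
      · apply Primrec.list_append.comp
        · exact Primrec.list_map Primrec.snd (Primrec.fst.comp Primrec.snd).to₂
        · exact Primrec.list_cons.comp (Primrec.snd.comp (Primrec.snd.comp Primrec.fst))
            (Primrec.const [])
  exact h1.of_eq (fun x => (rtg_iff x.2.1 x.2.2).symm)

end Sig

end Pool.Agent.W_MP_c77619_lc
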