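import Pool.Agent.W_MP_c77619_lc.Value

/-!
Soundness: a valid certificate implies that the two homomorphisms agree on the language.
-/

set_option autoImplicit false

namespace Pool.Agent.W_MP_c77619_lc

/-- cast to the rationals -/
def castV (x : Fin 5 → ℕ) : Fin 5 → ℚ := fun k => (x k : ℚ)

/-- the values of the vectors of the certificate with key `(A, F)` -/
def gens (cert : Cert) (A F : ℕ) (e : ℕ → ℕ) : Set (Fin 5 → ℚ) :=
  {x | ∃ v, ((A, F), v) ∈ cert ∧ x = castV (evalV e v)}

lemma castV_mul5 (x y : Fin 5 → ℕ) : castV (mul5 x y) = mul5 (castV x) (castV y) := by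
  funext k
  fin_cases k <;> simp [castV, mul5]

lemma evalP_flatMap {α : Type*} (e : ℕ → ℕ) (T : List α) (f : α → Poly) :
    evalP e (T.flatMap f) = (T.map (fun t => evalP e (f t))).sum := by
  induction T with
  | nil => rfl
  | cons t T ih => rw [List.flatMap_cons, evalP_append, ih, List.map_cons, List.sum_cons]

lemma mem_span {n : ℕ} {cert : Cert} {A F : ℕ} {v : Vec} (h : Mem n cert A F v) (e : ℕ → ℕ)
    (he : ∀ j, n ≤ j → e j = 0) : castV (evalV e v) ∈ Submodule.span ℚ (gens cert A F e) := by
  obtain ⟨T, hT, heq⟩ := h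
  have h1 : castV (evalV e v) = (T.map (fun t => (((evalP e t.1 : ℕ) : ℚ) - ((evalP e t.2.1 : ℕ) : ℚ)) •
      castV (evalV e t.2.2))).sum := by
    funext k
    have h2 := eqv_eval (heq k (List.mem_range.mpr k.2)) e he
    rw [evalP_append, evalP_flatMap, evalP_flatMap] at h2
    simp only [evalP_mulP] at h2
    have h3 : ∀ (L : List (Poly × Poly × Vec)), ((L.map (fun t => (((evalP e t.1 : ℕ) : ℚ) -
        ((evalP e t.2.1 : ℕ) : ℚ)) • castV (evalV e t.2.2))).sum) k
        = (((L.map (fun t => evalP e t.1 * evalP e (t.2.2.getD (k : ℕ) []))).sum : ℕ) : ℚ)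
          - (((L.map (fun t => evalP e t.2.1 * evalP e (t.2.2.getD (k : ℕ) []))).sum : ℕ) : ℚ) := by
      intro L
      induction L with
      | nil => simp
      | cons t L ih =>
        simp only [List.map_cons, List.sum_cons, Pi.add_apply, ih, Pi.smul_apply, smul_eq_mul,
          castV, evalV]
        push_cast
        ring
    rw [h3 T, ← h2]
    push_cast
    simp only [castV, evalV]
    ring
  rw [h1]
  apply list_sum_mem
  intro x hx
  obtain ⟨t, ht, rfl⟩ := List.mem_map.mp hx
  exact Submodule.smul_mem _ _ (Submodule.subset_span ⟨t.2.2, hT t ht, rfl⟩)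

lemma exists_five (s : Set (Fin 5 → ℚ)) : ∃ x : Fin 5 → (Fin 5 → ℚ),
    (∀ i, x i ∈ s ∨ x i = 0) ∧ Submodule.span ℚ s ≤ Submodule.span ℚ (Set.range x) := by
  classical
  obtain ⟨b, hbs, hspan, hli⟩ := exists_linearIndependent ℚ s
  have hfin : b.Finite := hli.setFinite
  have : Fintype b := hfin.fintype
  have hcard : Fintype.card b ≤ 5 := by
    have := hli.fintype_card_le_finrank
    simpa using this
  let eq := Fintype.equivFin b
  refine ⟨fun i => if h : (i : ℕ) < Fintype.card b then (eq.symm ⟨i, h⟩ : b).1 else 0, ?_, ?_⟩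
  · intro i
    simp only
    split_ifs with h
    · left; exact hbs (eq.symm ⟨i, h⟩).2
    · right; rfl
  · rw [← hspan, Submodule.span_le]
    intro y hy
    apply Submodule.subset_span
    have hlt := (eq ⟨y, hy⟩).2
    refine ⟨⟨(eq ⟨y, hy⟩).1, by omega⟩, ?_⟩
    simp only
    rw [dif_pos hlt]
    simp

lemma exists_ext (cert : Cert) (K F : ℕ) (e : ℕ → ℕ) : ∃ X : ℕ → ℕ,
    (∀ j, 25 * K ≤ j → X j = 0) ∧
    (∀ C < K, Submodule.span ℚ (gens cert C F e) ≤ Submodule.span ℚ
      (Set.range (fun i : Fin 5 => fun k : Fin 5 => ((X ((C * 5 + i) * 5 + k) : ℕ) : ℚ)))) ∧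
    (∃ s ∈ grid (cert.length + 1) (5 * K), ∀ j, X j = evalP e (sb cert F s j)) := by
  classical
  choose x hx hspan using fun C : ℕ => exists_five (gens cert C F e)
  have hidx : ∀ C i, ∃ m, m ≤ cert.length ∧ ((x C i ∈ gens cert C F e ∧ ∃ h : m < cert.length,
      (cert[m]).1 = (C, F) ∧ x C i = castV (evalV e (cert[m]).2)) ∨
      (x C i = 0 ∧ m = cert.length)) := by
    intro C i
    by_cases h : x C i ∈ gens cert C F e
    · obtain ⟨v, hv, hxv⟩ := id h
      obtain ⟨m, hm, hmv⟩ := List.mem_iff_getElem.mp hv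
      exact ⟨m, hm.le, Or.inl ⟨h, hm, by rw [hmv], by rw [hmv]; exact hxv⟩⟩
    · exact ⟨cert.length, le_refl _, Or.inr ⟨(hx C i).resolve_left h, rfl⟩⟩
  choose idx hidx1 hidx2 using hidx
  let s : List ℕ := (List.range (5 * K)).map (fun k => idx (k / 5) ⟨k % 5, Nat.mod_lt _ (by omega)⟩)
  have hlen : s.length = 5 * K := by simp [s]
  have hs : s ∈ grid (cert.length + 1) (5 * K) := by
    rw [mem_grid]
    refine ⟨hlen, ?_⟩
    intro y hy
    obtain ⟨k, _, rfl⟩ := List.mem_map.mp hy
    have := hidx1 (k / 5) ⟨k % 5, Nat.mod_lt _ (by omega)⟩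
    omega
  have hsel0 : ∀ k, 5 * K ≤ k → sel cert F s k = [] := by
    intro k hk
    unfold sel
    rw [List.getD_eq_default s _ (by omega)]
    rw [List.getD_eq_default cert _ (le_refl _)]
    simp
  refine ⟨fun j => evalP e (sb cert F s j), ?_, ?_, s, hs, fun j => rfl⟩
  · intro j hj
    simp only [sb]
    rw [hsel0 (j / 5) (by omega)]
    simp
  · intro C hC
    have hkey : ∀ i : Fin 5, (fun k : Fin 5 => ((evalP e (sb cert F s ((C * 5 + i) * 5 + k)) : ℕ) : ℚ))
        = x C i := by
      intro i
      have hi := i.2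
      have hgs : s.getD (C * 5 + i) cert.length = idx C i := by
        rw [List.getD_eq_getElem s _ (by omega)]
        simp only [s, List.getElem_map, List.getElem_range]
        congr 1
        · omega
        · apply Fin.ext
          simp only
          omega
      have hsel : castV (evalV e (sel cert F s (C * 5 + i))) = x C i := by
        unfold sel
        rw [hgs]
        rcases hidx2 C i with ⟨_, hm, hk, hxc⟩ | ⟨h0, hm⟩
        · rw [List.getD_eq_getElem cert _ hm]
          rw [if_pos (by rw [hk, show (C * 5 + (i : ℕ)) / 5 = C by omega]), hxc]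
        · rw [hm, List.getD_eq_default cert _ (le_refl _), h0]
          simp only [ite_self]
          rw [evalV_nil]
          funext k
          simp [castV]
      rw [← hsel]
      funext k
      have hk := k.2
      simp only [castV, evalV, sb]
      rw [show ((C * 5 + (i : ℕ)) * 5 + (k : ℕ)) / 5 = C * 5 + i by omega,
        show ((C * 5 + (i : ℕ)) * 5 + (k : ℕ)) % 5 = k by omega]
    have h2 : (fun i : Fin 5 => fun k : Fin 5 =>
        ((evalP e (sb cert F s ((C * 5 + i) * 5 + k)) : ℕ) : ℚ)) = x C := funext hkey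
    simp only
    rw [h2]
    exact hspan C

/-- environment of the next level -/
noncomputable def ext (cert : Cert) (K F : ℕ) (e : ℕ → ℕ) : ℕ → ℕ :=
  (exists_ext cert K F e).choose

lemma ext_spec (cert : Cert) (K F : ℕ) (e : ℕ → ℕ) :
    (∀ j, 25 * K ≤ j → ext cert K F e j = 0) ∧
    (∀ C < K, Submodule.span ℚ (gens cert C F e) ≤ Submodule.span ℚ
      (Set.range (fun i : Fin 5 => fun k : Fin 5 =>
        ((ext cert K F e ((C * 5 + i) * 5 + k) : ℕ) : ℚ)))) ∧
    (∃ s ∈ grid (cert.length + 1) (5 * K), ∀ j, ext cert K F e j = evalP e (sb cert F s j)) :=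
  (exists_ext cert K F e).choose_spec

/-- top symbol of a stack -/
def key : List ℕ → ℕ
  | [] => 0
  | (f :: _) => f + 1

/-- environment below a stack -/
noncomputable def envOf (cert : Cert) (K : ℕ) : List ℕ → (ℕ → ℕ)
  | [] => fun _ => 0
  | (_ :: σ) => ext cert K (key σ) (envOf cert K σ)

/-- over-approximation of the span of the values of the words of `A` with stack `σ` -/
noncomputable def W (cert : Cert) (K A : ℕ) (σ : List ℕ) : Submodule ℚ (Fin 5 → ℚ) :=
  Submodule.span ℚ (gens cert A (key σ) (envOf cert K σ))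

lemma envOf_zero (cert : Cert) (K : ℕ) (σ : List ℕ) (j : ℕ) (hj : 25 * K ≤ j) :
    envOf cert K σ j = 0 := by
  cases σ with
  | nil => rfl
  | cons f σ => exact (ext_spec cert K (key σ) (envOf cert K σ)).1 j hj

lemma gen_lt {p : Inp} {K : ℕ} (h : ∀ r ∈ p.2.1, r.2.1 < K) {A : ℕ} {σ w : List ℕ}
    (hg : Gen p.2.1 A σ w) : A < K := by
  cases hg with
  | bin hr _ _ => exact h _ hr
  | push hr _ => exact h _ hr
  | pop hr _ => exact h _ hr
  | letter hr => exact h _ hr
  | eps hr => exact h _ hr

theorem sound_aux {p : Inp} {K : ℕ} {cert : Cert} (hG : Good p K cert) {A : ℕ} {σ w : List ℕ}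
    (hg : Gen p.2.1 A σ w) : (∀ f ∈ σ, f + 1 ∈ flags p.2.1) →
      castV (muW p.2.2.1 p.2.2.2 w) ∈ W cert K A σ := by
  obtain ⟨hK, hC, -⟩ := hG
  induction hg with
  | @bin A B C σ w₁ w₂ hr h1 h2 ih1 ih2 =>
    intro hf
    have hkey : key σ ∈ flags p.2.1 := by
      cases σ with
      | nil => exact List.mem_cons_self
      | cons f σ => exact hf f List.mem_cons_self
    have hc := (hC _ hkey _ hr).1 rfl
    rw [muW_append, castV_mul5]
    apply mul5_mem (s := gens cert B (key σ) (envOf cert K σ))
      (t := gens cert C (key σ) (envOf cert K σ)) ?_ (ih1 hf) (ih2 hf)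
    rintro _ ⟨v1, hv1, rfl⟩ _ ⟨v2, hv2, rfl⟩
    rw [← castV_mul5, ← evalV_mulV]
    exact mem_span (hc _ hv1 rfl _ hv2 rfl) _ (envOf_zero cert K σ)
  | @push A B f σ w hr h1 ih =>
    intro hf
    have hkey : key σ ∈ flags p.2.1 := by
      cases σ with
      | nil => exact List.mem_cons_self
      | cons f σ => exact hf f List.mem_cons_self
    have hc := (hC _ hkey _ hr).2.1 rfl
    have hfl : f + 1 ∈ flags p.2.1 := List.mem_cons_of_mem _ (List.mem_map.mpr ⟨_, hr, rfl⟩)
    have h2 := ih (by
      intro g hg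
      rcases List.mem_cons.mp hg with rfl | hg
      · exact hfl
      · exact hf g hg)
    have h3 : W cert K B (f :: σ) ≤ W cert K A σ := by
      unfold W
      rw [Submodule.span_le]
      rintro _ ⟨v, hv, rfl⟩
      obtain ⟨s, hs, hX⟩ := (ext_spec cert K (key σ) (envOf cert K σ)).2.2
      have h4 : envOf cert K (f :: σ) = fun j => evalP (envOf cert K σ) (sb cert (key σ) s j) :=
        funext hX
      rw [h4, ← evalV_substV]
      exact mem_span (hc _ hv rfl s hs) _ (envOf_zero cert K σ)
    exact h3 h2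
  | @pop A B f σ w hr h1 ih =>
    intro hf
    have hkey : f + 1 ∈ flags p.2.1 := hf f List.mem_cons_self
    have hc := (hC _ hkey _ hr).2.2.1 rfl rfl
    have h2 := ih (fun g hg => hf g (List.mem_cons_of_mem _ hg))
    have h3 := (ext_spec cert K (key σ) (envOf cert K σ)).2.1 B (gen_lt hK h1) h2
    refine Submodule.span_le.mpr ?_ h3
    rintro _ ⟨i, rfl⟩
    have h4 := mem_span (hc i (List.mem_range.mpr i.2)) _ (envOf_zero cert K (f :: σ))
    rw [evalV_varV] at h4
    exact h4
  | @letter A a c σ hr =>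
    intro hf
    have hkey : key σ ∈ flags p.2.1 := by
      cases σ with
      | nil => exact List.mem_cons_self
      | cons f σ => exact hf f List.mem_cons_self
    have hc := (hC _ hkey _ hr).2.2.2.1 rfl
    have h4 := mem_span hc _ (envOf_zero cert K σ)
    rw [evalV_muV] at h4
    simp only [Nat.cast_id] at h4
    exact h4
  | @eps A a c σ hr =>
    intro hf
    have hkey : key σ ∈ flags p.2.1 := by
      cases σ with
      | nil => exact List.mem_cons_self
      | cons f σ => exact hf f List.mem_cons_self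
    have hc := (hC _ hkey _ hr).2.2.2.2 rfl
    have h4 := mem_span hc _ (envOf_zero cert K σ)
    rw [evalV_oneV _ p.2.2.1 p.2.2.2] at h4
    simp only [Nat.cast_id] at h4
    exact h4

theorem sound {p : Inp} {K : ℕ} {cert : Cert} (hG : Good p K cert) {w : List ℕ}
    (hg : Gen p.2.1 p.1 [] w) : hom p.2.2.1 w = hom p.2.2.2 w := by
  have h1 := sound_aux hG hg (by simp)
  have h2 : ∀ x ∈ W cert K p.1 [], x 2 = x 3 := by
    intro x hx
    unfold W at hx
    induction hx using Submodule.span_induction with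
    | mem x hx =>
      obtain ⟨v, hv, rfl⟩ := hx
      have := hG.2.2 _ hv rfl
      simp only [castV, evalV]
      exact_mod_cast this
    | zero => rfl
    | add x y _ _ hx hy => simp [hx, hy]
    | smul c x _ hx => simp [hx]
  have h3 := h2 _ h1
  apply sv_injective
  simp only [castV, muW] at h3
  exact_mod_cast h3

end Pool.Agent.W_MP_c77619_lc
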