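import Pool.Agent.W_MP_c77619_lc.Cert

/-!
The value of a word in a five-dimensional algebra, and algebra of vectors.
-/

set_option autoImplicit false

namespace Pool.Agent.W_MP_c77619_lc

lemma sv_nil : sv [] = (1, 0) := rfl

lemma sv_cons (n : ℕ) (u : List ℕ) :
    sv (n :: u) = (2 ^ (n+1) * (sv u).1, 2 ^ n * (sv u).1 + (sv u).2) := rfl

lemma sv_append (u v : List ℕ) :
    sv (u ++ v) = ((sv u).1 * (sv v).1, (sv u).2 * (sv v).1 + (sv v).2) := by
  induction u with
  | nil => simp [sv_nil]
  | cons n u ih =>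
    rw [List.cons_append, sv_cons, sv_cons, ih]
    simp only [Prod.mk.injEq]
    constructor
    · ring
    · ring

lemma sv_concat (u : List ℕ) (n : ℕ) : (sv (u ++ [n])).2 = 2 ^ n * (2 * (sv u).2 + 1) := by
  rw [sv_append, sv_cons, sv_nil]
  simp only
  ring

lemma odd_inj (n m a b : ℕ) (h : 2 ^ n * (2 * a + 1) = 2 ^ m * (2 * b + 1)) : n = m ∧ a = b := by
  induction n generalizing m with
  | zero =>
    cases m with
    | zero => omega
    | succ m =>
      exfalso
      rw [pow_succ, pow_zero] at h
      have : 2 ^ m * 2 * (2 * b + 1) = 2 * (2 ^ m * (2 * b + 1)) := by ring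
      omega
  | succ n ih =>
    cases m with
    | zero =>
      exfalso
      rw [pow_succ, pow_zero] at h
      have : 2 ^ n * 2 * (2 * a + 1) = 2 * (2 ^ n * (2 * a + 1)) := by ring
      omega
    | succ m =>
      have h1 : 2 ^ (n+1) * (2 * a + 1) = 2 * (2 ^ n * (2 * a + 1)) := by ring
      have h2 : 2 ^ (m+1) * (2 * b + 1) = 2 * (2 ^ m * (2 * b + 1)) := by ring
      have h3 := ih m (by omega)
      omega

/-- the value determines the word -/
theorem sv_injective : ∀ u v : List ℕ, (sv u).2 = (sv v).2 → u = v := by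
  intro u
  induction u using List.reverseRecOn with
  | nil =>
    intro v h
    rcases List.eq_nil_or_concat v with rfl | ⟨v', n, rfl⟩
    · rfl
    · exfalso
      rw [List.concat_eq_append, sv_nil, sv_concat] at h
      have : 0 < 2 ^ n * (2 * (sv v').2 + 1) := by positivity
      simp only at h
      omega
  | append_singleton u n ih =>
    intro v h
    rcases List.eq_nil_or_concat v with rfl | ⟨v', m, rfl⟩
    · exfalso
      rw [sv_nil, sv_concat] at h
      have : 0 < 2 ^ n * (2 * (sv u).2 + 1) := by positivity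
      simp only at h
      omega
    · rw [List.concat_eq_append] at h ⊢
      rw [sv_concat, sv_concat] at h
      obtain ⟨rfl, h2⟩ := odd_inj _ _ _ _ h
      rw [ih v' h2]

lemma hom_append (t : List (List ℕ)) (w w' : List ℕ) : hom t (w ++ w') = hom t w ++ hom t w' := by
  simp [hom]

/-- value of a word -/
def muW (hs gs : List (List ℕ)) (w : List ℕ) : Fin 5 → ℕ :=
  ![(sv (hom hs w)).1, (sv (hom gs w)).1, (sv (hom hs w)).2, (sv (hom gs w)).2, 1]

/-- product of the algebra -/
def mul5 {R : Type*} [CommSemiring R] (x y : Fin 5 → R) : Fin 5 → R :=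
  ![x 0 * y 0, x 1 * y 1, x 2 * y 0 + x 4 * y 2, x 3 * y 1 + x 4 * y 3, x 4 * y 4]

lemma muW_append (hs gs : List (List ℕ)) (w w' : List ℕ) :
    muW hs gs (w ++ w') = mul5 (muW hs gs w) (muW hs gs w') := by
  funext k
  fin_cases k <;> simp [muW, mul5, hom_append, sv_append]

section
variable {R : Type*} [CommSemiring R]

lemma evalV_mulV (e : ℕ → R) (v v' : Vec) : evalV e (mulV v v') = mul5 (evalV e v) (evalV e v') := by
  funext k
  fin_cases k <;> simp [evalV, mulV, mul5, evalP_mulP, evalP_append]

lemma evalV_muV (e : ℕ → R) (hs gs : List (List ℕ)) (a : ℕ) :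
    evalV e (muV hs gs a) = fun k => ((muW hs gs [a] k : ℕ) : R) := by
  funext k
  fin_cases k <;> simp [evalV, muV, muW, hom, evalP_constP]

lemma evalV_oneV (e : ℕ → R) (hs gs : List (List ℕ)) :
    evalV e oneV = fun k => ((muW hs gs [] k : ℕ) : R) := by
  funext k
  fin_cases k <;> simp [evalV, oneV, muW, hom, evalP_constP, sv_nil]

lemma evalV_substV (e : ℕ → R) (s : ℕ → Poly) (v : Vec) :
    evalV e (substV s v) = evalV (fun j => evalP e (s j)) v := by
  funext k
  have h : (substV s v).getD k [] = substP s (v.getD k []) := by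
    have h0 : substP s [] = [] := rfl
    conv_lhs => rw [← h0]
    exact List.getD_map v [] (substP s)
  simp only [evalV]
  rw [h, evalP_substP]

lemma evalV_varV (e : ℕ → R) (B i : ℕ) :
    evalV e (varV B i) = fun k : Fin 5 => e ((B * 5 + i) * 5 + k) := by
  funext k
  fin_cases k <;> simp [evalV, varV, evalP, List.range_succ]

lemma evalV_nil (e : ℕ → R) : evalV e [] = 0 := by
  funext k
  simp [evalV]

end

section
variable {R : Type*} [CommRing R]

/-- the product as a bilinear map -/
def mulB (R : Type*) [CommRing R] : (Fin 5 → R) →ₗ[R] (Fin 5 → R) →ₗ[R] (Fin 5 → R) :=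
  LinearMap.mk₂ R mul5
    (by intro x x' y; funext k; fin_cases k <;> simp [mul5] <;> ring)
    (by intro c x y; funext k; fin_cases k <;> simp [mul5] <;> ring)
    (by intro x y y'; funext k; fin_cases k <;> simp [mul5] <;> ring)
    (by intro c x y; funext k; fin_cases k <;> simp [mul5] <;> ring)

lemma mul5_mem {s t : Set (Fin 5 → R)} {W : Submodule R (Fin 5 → R)}
    (h : ∀ x ∈ s, ∀ y ∈ t, mul5 x y ∈ W) {x y : Fin 5 → R} (hx : x ∈ Submodule.span R s)
    (hy : y ∈ Submodule.span R t) : mul5 x y ∈ W := by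
  have h1 : mulB R x y ∈ Submodule.map₂ (mulB R) (Submodule.span R s) (Submodule.span R t) :=
    Submodule.apply_mem_map₂ _ hx hy
  rw [Submodule.map₂_span_span] at h1
  have h2 : Submodule.span R (Set.image2 (fun m n => mulB R m n) s t) ≤ W := by
    rw [Submodule.span_le]
    rintro z ⟨a, ha, b, hb, rfl⟩
    exact h a ha b hb
  exact h2 h1

end

end Pool.Agent.W_MP_c77619_lc
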